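import Mathlib

/-!
# Gordan's theorem of the alternative
-/

namespace Pool.Agent.Lib.MP_731b42_co

theorem gordan {ι n : Type} [Fintype ι] [Fintype n] (L : ι → (n → ℝ) →ₗ[ℝ] ℝ)
    (h : ¬ ∃ z, ∀ i, 0 < L i z) :
    ∃ c : ι → ℝ, (∀ i, 0 ≤ c i) ∧ (∃ i, c i ≠ 0) ∧ ∀ z, ∑ i, c i * L i z = 0 := by
  classical
  let a : ι → (n → ℝ) := fun i j => L i (Pi.single j 1)
  have hL : ∀ i z, L i z = ∑ j, z j * a i j := by
    intro i z
    rw [LinearMap.pi_apply_eq_sum_univ (L i) z]
    simp only [smul_eq_mul, a]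
    refine Finset.sum_congr rfl fun j _ => ?_
    congr 2
    funext k
    simp [Pi.single_apply, eq_comm]
  have h0 : (0 : n → ℝ) ∈ convexHull ℝ (Set.range a) := by
    by_contra hcon
    obtain ⟨f, u, h1, h2⟩ := geometric_hahn_banach_point_closed
      (convex_convexHull ℝ (Set.range a)) ((Set.finite_range a).isClosed_convexHull ℝ) hcon
    apply h
    refine ⟨fun j => f (Pi.single j 1), fun i => ?_⟩
    have h3 : 0 < f (a i) := by
      have := h2 (a i) (subset_convexHull ℝ _ ⟨i, rfl⟩)
      rw [map_zero] at h1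
      linarith
    rw [hL]
    have h4 : f (a i) = ∑ j, f (Pi.single j 1) * a i j := by
      have h5 := LinearMap.pi_apply_eq_sum_univ (f : (n → ℝ) →ₗ[ℝ] ℝ) (a i)
      simp only [smul_eq_mul, ContinuousLinearMap.coe_coe] at h5
      rw [h5]
      refine Finset.sum_congr rfl fun j _ => ?_
      rw [mul_comm]
      congr 2
      funext k
      simp [Pi.single_apply, eq_comm]
    rw [← h4]; exact h3
  obtain ⟨κ, _, w, z, hw0, hw1, hz, hsum⟩ := mem_convexHull_iff_exists_fintype.1 h0
  choose σ hσ using hz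
  refine ⟨fun i => ∑ k, if σ k = i then w k else 0, ?_, ?_, ?_⟩
  · intro i
    exact Finset.sum_nonneg fun k _ => by split_ifs <;> [exact hw0 k; exact le_refl _]
  · by_contra hcon
    push Not at hcon
    have h1 : ∑ i, ∑ k, (if σ k = i then w k else 0) = 0 := Finset.sum_eq_zero fun i _ => hcon i
    rw [Finset.sum_comm] at h1
    simp only [Finset.sum_ite_eq, Finset.mem_univ, if_true] at h1
    rw [hw1] at h1
    exact one_ne_zero h1
  · intro x
    have h1 : ∑ i, (∑ k, if σ k = i then w k else 0) * L i x = ∑ k, w k * L (σ k) x := by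
      simp only [Finset.sum_mul, ite_mul, zero_mul]
      rw [Finset.sum_comm]
      refine Finset.sum_congr rfl fun k _ => ?_
      rw [Finset.sum_ite_eq]
      simp
    rw [h1]
    have h2 : ∀ k, w k * L (σ k) x = ∑ j, x j * (w k * z k j) := by
      intro k
      rw [hL, Finset.mul_sum, ← hσ k]
      refine Finset.sum_congr rfl fun j _ => by ring
    simp only [h2]
    rw [Finset.sum_comm]
    apply Finset.sum_eq_zero
    intro j _
    rw [← Finset.mul_sum]
    have h3 := congrFun hsum j
    simp only [Finset.sum_apply, Pi.smul_apply, smul_eq_mul, Pi.zero_apply] at h3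
    rw [h3, mul_zero]

end Pool.Agent.Lib.MP_731b42_co
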