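import Pool.Agent.Lib.MP_731b42_co.Core
import Pool.Agent.Lib.MP_731b42_co.Gordan

/-!
# The cone of drawings: a negative point gives a positive point and conversely
-/

namespace Pool.Agent.Lib.MP_731b42_co

section cone

variable {V E : Type} {D : Dat V E} {z0 : V → ℝ}

/-- same sides as `z0` for every vertex over or under an edge -/
def InCone (D : Dat V E) (z0 z : V → ℝ) : Prop :=
  ∀ e u, D.K e (D.dir u) → 0 < (D.h z0 e (D.dir u) - z0 u) * (D.h z e (D.dir u) - z u)

lemma h_add (x y : V → ℝ) (e : E) (p : ℝ × ℝ) :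
    D.h (fun v => x v + y v) e p = D.h x e p + D.h y e p := by
  unfold Dat.h H; ring

lemma h_neg (x : V → ℝ) (e : E) (p : ℝ × ℝ) :
    D.h (fun v => - x v) e p = - D.h x e p := by
  unfold Dat.h H; ring

variable [Fintype V] [Fintype E]

theorem exists_pos (hz : Good D z0) (hdir : ∀ v, D.dir v ≠ 0)
    (h : ∃ z, InCone D z0 z ∧ ∀ v, z v < 0) : ∃ z, InCone D z0 z ∧ ∀ v, 0 < z v := by
  classical
  obtain ⟨zs, hzs, hneg⟩ := h
  by_contra hcon
  let s : E → V → ℝ := fun e u => D.h z0 e (D.dir u) - z0 u
  let L : (E × V) ⊕ V → (V → ℝ) →ₗ[ℝ] ℝ := fun i =>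
    match i with
    | Sum.inl (e, u) =>
      { toFun := fun z => if D.K e (D.dir u) then s e u * (D.h z e (D.dir u) - z u) else z u
        map_add' := by
          intro x y
          have := h_add (D := D) x y e (D.dir u)
          split_ifs
          · change s e u * (D.h (fun v => x v + y v) e (D.dir u) - (x u + y u)) = _
            rw [this]; ring
          · rfl
        map_smul' := by
          intro c x
          have := h_smul (D := D) c x e (D.dir u)
          simp only [RingHom.id_apply, smul_eq_mul, Pi.smul_apply]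
          split_ifs
          · change s e u * (D.h (fun v => c * x v) e (D.dir u) - (c * x u)) = _
            rw [this]; ring
          · rfl }
    | Sum.inr v => LinearMap.proj v
  have hL1 : ∀ e u z, L (Sum.inl (e, u)) z
      = if D.K e (D.dir u) then s e u * (D.h z e (D.dir u) - z u) else z u := fun _ _ _ => rfl
  have hL2 : ∀ v z, L (Sum.inr v) z = z v := fun _ _ => rfl
  have hno : ¬ ∃ z, ∀ i, 0 < L i z := by
    rintro ⟨z, hzz⟩
    apply hcon
    refine ⟨z, ?_, fun v => by have := hzz (Sum.inr v); rwa [hL2] at this⟩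
    intro e u hK
    have := hzz (Sum.inl (e, u))
    rw [hL1, if_pos hK] at this
    exact this
  obtain ⟨c, hc0, ⟨i0, hi0⟩, hc⟩ := gordan L hno
  -- the certificate
  let F : V → E → ℝ := fun u e => c (Sum.inl (e, u)) * s e u
  let ν : V → ℝ := fun v => c (Sum.inr v)
    + ∑ e, (if D.K e (D.dir v) then 0 else c (Sum.inl (e, v)))
  have hcert : Cert D z0 F ν := by
    refine ⟨?_, ?_, ?_, ?_⟩
    · intro u e _ h1
      exact mul_nonneg (hc0 _) (by simp only [s]; linarith)
    · intro u e _ h1
      exact mul_nonpos_of_nonneg_of_nonpos (hc0 _) (by simp only [s]; linarith)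
    · intro u
      apply add_nonneg (hc0 _)
      exact Finset.sum_nonneg fun e _ => by split_ifs <;> [exact le_refl _; exact hc0 _]
    · intro ζ
      have h1 := hc ζ
      rw [Fintype.sum_sum_type, Fintype.sum_prod_type] at h1
      simp only [hL1, hL2] at h1
      have h2 : ∑ u, ν u * ζ u = ∑ v, c (Sum.inr v) * ζ v
          + ∑ e, ∑ u, (if D.K e (D.dir u) then 0 else c (Sum.inl (e, u)) * ζ u) := by
        simp only [ν, add_mul, Finset.sum_add_distrib, Finset.sum_mul]
        congr 1
        rw [Finset.sum_comm]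
        refine Finset.sum_congr rfl fun e _ => Finset.sum_congr rfl fun u _ => ?_
        split_ifs <;> simp
      have h3 : ∑ e, ∑ u, c (Sum.inl (e, u)) *
          (if D.K e (D.dir u) then s e u * (D.h ζ e (D.dir u) - ζ u) else ζ u)
          = (∑ e, ∑ u, (if D.K e (D.dir u) then F u e * (D.h ζ e (D.dir u) - ζ u) else 0))
            + ∑ e, ∑ u, (if D.K e (D.dir u) then 0 else c (Sum.inl (e, u)) * ζ u) := by
        rw [← Finset.sum_add_distrib]
        refine Finset.sum_congr rfl fun e _ => ?_
        rw [← Finset.sum_add_distrib]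
        refine Finset.sum_congr rfl fun u _ => ?_
        split_ifs
        · simp only [F]; ring
        · ring
      rw [h2]
      rw [h3] at h1
      linarith
  have hsunk : Sunk D z0 (fun v => - zs v) := by
    refine ⟨fun v => by linarith [hneg v], ?_⟩
    intro e u hK h1
    have h2 := hzs e u hK
    rw [h_neg]
    have h3 : 0 < D.h z0 e (D.dir u) - z0 u := by linarith
    have h4 := (mul_pos_iff_of_pos_left h3).1 h2
    linarith
  have hν : ∀ v, ν v = 0 := fun v => no_cert hz hcert hsunk (hdir v)
  have hc1 : ∀ v, c (Sum.inr v) = 0 := by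
    intro v
    have h1 := hν v
    have h2 : 0 ≤ ∑ e, (if D.K e (D.dir v) then 0 else c (Sum.inl (e, v))) :=
      Finset.sum_nonneg fun e _ => by split_ifs <;> [exact le_refl _; exact hc0 _]
    have h3 := hc0 (Sum.inr v)
    simp only [ν] at h1
    linarith
  have hc2 : ∀ e v, ¬ D.K e (D.dir v) → c (Sum.inl (e, v)) = 0 := by
    intro e v hK
    have h1 := hν v
    simp only [ν, hc1 v, zero_add] at h1
    have h2 := (Finset.sum_eq_zero_iff_of_nonneg (fun e _ => by
      split_ifs <;> [exact le_refl _; exact hc0 _])).1 h1 e (Finset.mem_univ _)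
    rwa [if_neg hK] at h2
  have h1 := hc zs
  have h2 : ∀ i ∈ (Finset.univ : Finset ((E × V) ⊕ V)), 0 ≤ c i * L i zs := by
    rintro (⟨e, u⟩ | v) _
    · by_cases hK : D.K e (D.dir u)
      · rw [hL1, if_pos hK]
        exact mul_nonneg (hc0 _) (hzs e u hK).le
      · rw [hc2 e u hK, zero_mul]
    · rw [hc1, zero_mul]
  have h3 := (Finset.sum_eq_zero_iff_of_nonneg h2).1 h1 i0 (Finset.mem_univ _)
  rcases i0 with ⟨e, u⟩ | v
  · by_cases hK : D.K e (D.dir u)
    · rw [hL1, if_pos hK] at h3
      have h4 := hzs e u hK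
      rcases mul_eq_zero.1 h3 with h5 | h5
      · exact hi0 h5
      · exact absurd h5 (ne_of_gt h4)
    · exact hi0 (hc2 e u hK)
  · exact hi0 (hc1 v)

omit [Fintype V] [Fintype E] in
lemma Good.neg (hz : Good D z0) : Good D (fun v => - z0 v) := by
  refine ⟨?_, ?_⟩
  · intro e u hK h
    rw [h_neg] at h
    exact hz.vert e u hK (neg_injective h)
  · intro e f hef p he hf h
    rw [h_neg, h_neg] at h
    exact hz.edge e f hef p he hf (neg_injective h)

omit [Fintype V] [Fintype E] in
lemma InCone.neg {z : V → ℝ} (h : InCone D z0 z) :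
    InCone D (fun v => - z0 v) (fun v => - z v) := by
  intro e u hK
  have := h e u hK
  rw [h_neg, h_neg]
  have e1 : (-D.h z0 e (D.dir u) - -z0 u) * (-D.h z e (D.dir u) - -z u)
      = (D.h z0 e (D.dir u) - z0 u) * (D.h z e (D.dir u) - z u) := by ring
  rw [e1]; exact this

/-- the cone contains a negative point iff it contains a positive point -/
theorem neg_iff_pos (hz : Good D z0) (hdir : ∀ v, D.dir v ≠ 0) :
    (∃ z, InCone D z0 z ∧ ∀ v, z v < 0) ↔ (∃ z, InCone D z0 z ∧ ∀ v, 0 < z v) := by
  constructor
  · exact exists_pos hz hdir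
  · rintro ⟨z, h1, h2⟩
    obtain ⟨z', h3, h4⟩ := exists_pos hz.neg hdir
      ⟨fun v => - z v, h1.neg, fun v => by linarith [h2 v]⟩
    refine ⟨fun v => - z' v, ?_, fun v => by linarith [h4 v]⟩
    have := h3.neg
    simpa using this

omit [Fintype V] [Fintype E] in
lemma InCone.self (hz : Good D z0) : InCone D z0 z0 := by
  intro e u hK
  exact mul_self_pos.2 (sub_ne_zero.2 (hz.vert e u hK))

omit [Fintype V] [Fintype E] in
lemma InCone.convex {x y : V → ℝ} (hx : InCone D z0 x) (hy : InCone D z0 y) {s t : ℝ}
    (hs : 0 ≤ s) (ht : 0 ≤ t) (hst : s + t = 1) : InCone D z0 (fun v => s * x v + t * y v) := by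
  intro e u hK
  have h1 := hx e u hK
  have h2 := hy e u hK
  have e1 : D.h (fun v => s * x v + t * y v) e (D.dir u)
      = s * D.h x e (D.dir u) + t * D.h y e (D.dir u) := by
    unfold Dat.h H; ring
  rw [e1]
  have e2 : (D.h z0 e (D.dir u) - z0 u) * (s * D.h x e (D.dir u) + t * D.h y e (D.dir u)
      - (s * x u + t * y u)) = s * ((D.h z0 e (D.dir u) - z0 u) * (D.h x e (D.dir u) - x u))
      + t * ((D.h z0 e (D.dir u) - z0 u) * (D.h y e (D.dir u) - y u)) := by ring
  rw [e2]
  rcases eq_or_lt_of_le hs with h | h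
  · subst h
    have : t = 1 := by linarith
    subst this
    linarith
  · have := mul_pos h h1
    have := mul_nonneg ht h2.le
    linarith

/-- four directions in cyclic order -/
lemma chain_pos {a b c d : ℝ × ℝ} (h1 : 0 < S a b) (h2 : 0 < S b c) (h3 : 0 < S c d)
    (h4 : 0 < S a d) (h5 : 0 < S a c) : 0 < S b d := by
  have h := pl a b c d
  have h6 : 0 < S a c * S b d := by
    rw [← h]; exact add_pos (mul_pos h1 h3) (mul_pos h4 h2)
  exact (mul_pos_iff_of_pos_left h5).1 h6

lemma chain_pos' {a b c d : ℝ × ℝ} (h1 : 0 < S a b) (h2 : 0 < S b c) (h3 : 0 < S c d)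
    (h4 : 0 < S a d) (h5 : 0 < S b d) : 0 < S a c := by
  have h := pl a b c d
  have h6 : 0 < S a c * S b d := by
    rw [← h]; exact add_pos (mul_pos h1 h3) (mul_pos h4 h2)
  exact (mul_pos_iff_of_pos_right h5).1 h6

omit [Fintype V] [Fintype E] in
/-- every point of the cone is a drawing without crossings -/
theorem InCone.good (hz : Good D z0) (hS : ∀ u v, u ≠ v → S (D.dir u) (D.dir v) ≠ 0)
    {z : V → ℝ} (h : InCone D z0 z) : Good D z := by
  refine ⟨?_, ?_⟩
  · intro e u hK heq
    have := h e u hK
    rw [heq, sub_self, mul_zero] at this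
    exact lt_irrefl _ this
  · -- it is enough to treat the case e above f
    have key : ∀ e f, ∀ p, D.K e p → D.K f p → D.h z0 f p < D.h z0 e p →
        D.h z f p < D.h z e p := by
      intro e f p he hf hlt
      have hef : e ≠ f := by rintro rfl; exact lt_irrefl _ hlt
      -- left end
      have hleft : ∃ s : V, 0 < S (D.dir s) p ∧ 0 < S (D.dir s) (D.dir (D.r e)) ∧
          0 < S (D.dir s) (D.dir (D.r f)) ∧
          (D.h z f (D.dir s) < D.h z e (D.dir s) ∨
            (s = D.l e ∧ s = D.l f ∧ D.h z f (D.dir s) = D.h z e (D.dir s))) := by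
        by_cases hl : D.l e = D.l f
        · refine ⟨D.l e, he.1, D.pos e, by rw [hl]; exact D.pos f, Or.inr ⟨rfl, hl, ?_⟩⟩
          rw [h_l z e]
          rw [hl, h_l z f]
        · rcases lt_or_gt_of_ne (hS _ _ hl) with h1 | h1
          · -- l f west of l e
            have h1' : 0 < S (D.dir (D.l f)) (D.dir (D.l e)) := by rw [S_anti]; linarith
            have hKl : D.K f (D.dir (D.l e)) :=
              ⟨h1', chain_pos h1' he.1 hf.2 (D.pos f) hf.1⟩
            refine ⟨D.l e, he.1, D.pos e, hKl.2, Or.inl ?_⟩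
            have h2 := below_l hz he hf hlt hKl
            have h3 := h f (D.l e) hKl
            rw [h_l z e]
            have h4 : D.h z0 f (D.dir (D.l e)) - z0 (D.l e) < 0 := by linarith
            nlinarith
          · have hKl : D.K e (D.dir (D.l f)) :=
              ⟨h1, chain_pos h1 hf.1 he.2 (D.pos e) he.1⟩
            refine ⟨D.l f, hf.1, hKl.2, D.pos f, Or.inl ?_⟩
            have h2 := above_l hz he hf hlt hKl
            have h3 := h e (D.l f) hKl
            rw [h_l z f]
            have h4 : 0 < D.h z0 e (D.dir (D.l f)) - z0 (D.l f) := by linarith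
            nlinarith
      have hright : ∃ t : V, 0 < S p (D.dir t) ∧ (t = D.r e ∨ t = D.r f) ∧
          (D.h z f (D.dir t) < D.h z e (D.dir t) ∨
            (t = D.r e ∧ t = D.r f ∧ D.h z f (D.dir t) = D.h z e (D.dir t))) := by
        by_cases hr : D.r e = D.r f
        · refine ⟨D.r e, he.2, Or.inl rfl, Or.inr ⟨rfl, hr, ?_⟩⟩
          rw [h_r z e]
          rw [hr, h_r z f]
        · rcases lt_or_gt_of_ne (hS _ _ hr) with h1 | h1
          · -- r f west of r e : r f ∈ K e
            have h1' : 0 < S (D.dir (D.r f)) (D.dir (D.r e)) := by rw [S_anti]; linarith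
            have hKr : D.K e (D.dir (D.r f)) :=
              ⟨chain_pos' he.1 hf.2 h1' (D.pos e) he.2, h1'⟩
            refine ⟨D.r f, hf.2, Or.inr rfl, Or.inl ?_⟩
            have h2 := above_r hz he hf hlt hKr
            have h3 := h e (D.r f) hKr
            rw [h_r z f]
            have h4 : 0 < D.h z0 e (D.dir (D.r f)) - z0 (D.r f) := by linarith
            nlinarith
          · have hKr : D.K f (D.dir (D.r e)) :=
              ⟨chain_pos' hf.1 he.2 h1 (D.pos f) hf.2, h1⟩
            refine ⟨D.r e, he.2, Or.inl rfl, Or.inl ?_⟩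
            have h2 := below_r hz he hf hlt hKr
            have h3 := h f (D.r e) hKr
            rw [h_r z e]
            have h4 : D.h z0 f (D.dir (D.r e)) - z0 (D.r e) < 0 := by linarith
            nlinarith
      obtain ⟨s, hs1, hs2, hs3, hs⟩ := hleft
      obtain ⟨t, ht1, ht2, ht⟩ := hright
      have hst : 0 < S (D.dir s) (D.dir t) := by
        rcases ht2 with h1 | h1
        · rw [h1]; exact hs2
        · rw [h1]; exact hs3
      -- both ends cannot be equalities
      have hcombo : ∀ g : E, D.h z g p * S (D.dir s) (D.dir t)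
          = S p (D.dir t) * D.h z g (D.dir s) + S (D.dir s) p * D.h z g (D.dir t) := by
        intro g
        unfold Dat.h H
        have := (D.pos g).ne'
        field_simp
        unfold S
        ring
      have h1 := hcombo e
      have h2 := hcombo f
      have h3 : D.h z f p * S (D.dir s) (D.dir t) < D.h z e p * S (D.dir s) (D.dir t) := by
        rw [h1, h2]
        rcases hs with hs | ⟨hs4, hs5, hs6⟩
        · rcases ht with ht | ⟨ht4, ht5, ht6⟩
          · exact add_lt_add (mul_lt_mul_of_pos_left hs ht1) (mul_lt_mul_of_pos_left ht hs1)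
          · rw [ht6]
            have := mul_lt_mul_of_pos_left hs ht1
            linarith
        · rcases ht with ht | ⟨ht4, ht5, ht6⟩
          · rw [hs6]
            have := mul_lt_mul_of_pos_left ht hs1
            linarith
          · exact absurd (D.inj e f (hs4.symm.trans hs5) (ht4.symm.trans ht5)) hef
      exact lt_of_mul_lt_mul_right h3 hst.le
    intro e f hef p he hf
    rcases lt_or_gt_of_ne (hz.edge e f hef p he hf) with h1 | h1
    · exact (key f e p hf he h1).ne
    · exact (key e f p he hf h1).ne'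

end cone

end Pool.Agent.Lib.MP_731b42_co
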