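import Pool.Agent.Lib.MP_731b42_co.Plane

/-!
# The bending moment argument: there is no certificate
-/

namespace Pool.Agent.Lib.MP_731b42_co

section core

variable {V E : Type}

/-- directions of the vertices and end points of the edges -/
structure Dat (V E : Type) where
  dir : V → ℝ × ℝ
  l : E → V
  r : E → V
  pos : ∀ e, 0 < S (dir (l e)) (dir (r e))
  inj : ∀ e f, l e = l f → r e = r f → e = f

variable (D : Dat V E)

/-- the sector of an edge -/
def Dat.K (e : E) (p : ℝ × ℝ) : Prop := inK (D.dir (D.l e)) (D.dir (D.r e)) p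

/-- the height of an edge in a direction -/
noncomputable def Dat.h (z : V → ℝ) (e : E) (p : ℝ × ℝ) : ℝ :=
  H (z (D.l e)) (z (D.r e)) (D.dir (D.l e)) (D.dir (D.r e)) p

/-- the Green function of an edge -/
noncomputable def Dat.g (e : E) (p q : ℝ × ℝ) : ℝ := G (D.dir (D.l e)) (D.dir (D.r e)) p q

variable {D}

lemma h_l (z : V → ℝ) (e : E) : D.h z e (D.dir (D.l e)) = z (D.l e) := by
  unfold Dat.h H
  rw [S_self]
  have := (D.pos e).ne'
  field_simp
  ring

lemma h_r (z : V → ℝ) (e : E) : D.h z e (D.dir (D.r e)) = z (D.r e) := by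
  unfold Dat.h H
  rw [S_self]
  have := (D.pos e).ne'
  field_simp
  ring

lemma not_K_l (e : E) : ¬ D.K e (D.dir (D.l e)) := by
  intro h; have := h.1; rw [S_self] at this; exact lt_irrefl _ this

lemma not_K_r (e : E) : ¬ D.K e (D.dir (D.r e)) := by
  intro h; have := h.2; rw [S_self] at this; exact lt_irrefl _ this

lemma h_comb (z : V → ℝ) (e : E) (s t : ℝ) (p q : ℝ × ℝ) :
    D.h z e (s * p.1 + t * q.1, s * p.2 + t * q.2) = s * D.h z e p + t * D.h z e q := by
  unfold Dat.h H S
  simp only
  ring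

/-- point of a segment -/
def seg (q p : ℝ × ℝ) (t : ℝ) : ℝ × ℝ := ((1 - t) * q.1 + t * p.1, (1 - t) * q.2 + t * p.2)

lemma h_seg (z : V → ℝ) (e : E) (q p : ℝ × ℝ) (t : ℝ) :
    D.h z e (seg q p t) = (1 - t) * D.h z e q + t * D.h z e p := h_comb z e _ _ q p

lemma S_seg_right (a q p : ℝ × ℝ) (t : ℝ) : S a (seg q p t) = (1 - t) * S a q + t * S a p := by
  unfold S seg; simp only; ring

lemma S_seg_left (a q p : ℝ × ℝ) (t : ℝ) : S (seg q p t) a = (1 - t) * S q a + t * S p a := by
  unfold S seg; simp only; ring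

/-- `z` is a drawing without crossings -/
structure Good (D : Dat V E) (z : V → ℝ) : Prop where
  vert : ∀ e u, D.K e (D.dir u) → D.h z e (D.dir u) ≠ z u
  edge : ∀ e f, e ≠ f → ∀ p, D.K e p → D.K f p → D.h z e p ≠ D.h z f p

variable {z0 : V → ℝ}

/-- no order change along a segment -/
lemma seg_order (hz : Good D z0) {e f : E} (hef : e ≠ f) {q p : ℝ × ℝ}
    (hseg : ∀ t : ℝ, 0 < t → t < 1 → D.K e (seg q p t) ∧ D.K f (seg q p t))
    (hp : D.h z0 f p < D.h z0 e p) : D.h z0 f q ≤ D.h z0 e q := by
  by_contra hcon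
  push Not at hcon
  set A := D.h z0 e p - D.h z0 f p with hA
  set B := D.h z0 f q - D.h z0 e q with hB
  have hApos : 0 < A := by rw [hA]; linarith
  have hBpos : 0 < B := by rw [hB]; linarith
  have ht0 : 0 < B / (A + B) := by positivity
  have ht1 : B / (A + B) < 1 := by rw [div_lt_one (by linarith)]; linarith
  obtain ⟨h1, h2⟩ := hseg _ ht0 ht1
  apply hz.edge e f hef _ h1 h2
  rw [h_seg, h_seg]
  have h3 : D.h z0 e p = D.h z0 f p + A := by rw [hA]; ring
  have h4 : D.h z0 f q = D.h z0 e q + B := by rw [hB]; ring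
  rw [h3, h4]
  field_simp
  ring

lemma K_seg {e : E} {q p : ℝ × ℝ} (hq : D.K e q) (hp : D.K e p) {t : ℝ} (h0 : 0 < t)
    (h1 : t < 1) : D.K e (seg q p t) := by
  have h1' : 0 < 1 - t := by linarith
  refine ⟨?_, ?_⟩
  · rw [S_seg_right]; exact add_pos (mul_pos h1' hq.1) (mul_pos h0 hp.1)
  · rw [S_seg_left]; exact add_pos (mul_pos h1' hq.2) (mul_pos h0 hp.2)

lemma K_seg_l {e : E} {p : ℝ × ℝ} (hp : D.K e p) {t : ℝ} (h0 : 0 < t)
    (h1 : t < 1) : D.K e (seg (D.dir (D.l e)) p t) := by
  have h1' : 0 < 1 - t := by linarith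
  refine ⟨?_, ?_⟩
  · rw [S_seg_right, S_self, mul_zero, zero_add]; exact mul_pos h0 hp.1
  · rw [S_seg_left]; exact add_pos (mul_pos h1' (D.pos e)) (mul_pos h0 hp.2)

lemma K_seg_r {e : E} {p : ℝ × ℝ} (hp : D.K e p) {t : ℝ} (h0 : 0 < t)
    (h1 : t < 1) : D.K e (seg (D.dir (D.r e)) p t) := by
  have h1' : 0 < 1 - t := by linarith
  refine ⟨?_, ?_⟩
  · rw [S_seg_right]; exact add_pos (mul_pos h1' (D.pos e)) (mul_pos h0 hp.1)
  · rw [S_seg_left, S_self, mul_zero, zero_add]; exact mul_pos h0 hp.2

/-- the order of two edges is the same at all common directions -/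
lemma order_const (hz : Good D z0) {e f : E} {m p : ℝ × ℝ} (hem : D.K e m)
    (hfm : D.K f m) (hep : D.K e p) (hfp : D.K f p) (hm : D.h z0 f m < D.h z0 e m) :
    D.h z0 f p < D.h z0 e p := by
  have hef : e ≠ f := by rintro rfl; exact lt_irrefl _ hm
  have h1 := seg_order hz hef (q := p) (p := m)
    (fun t h0 h1 => ⟨K_seg hep hem h0 h1, K_seg hfp hfm h0 h1⟩) hm
  exact lt_of_le_of_ne h1 (hz.edge e f hef p hep hfp).symm

lemma above_l (hz : Good D z0) {e f : E} {m : ℝ × ℝ} (hem : D.K e m)
    (hfm : D.K f m) (hm : D.h z0 f m < D.h z0 e m) (hK : D.K e (D.dir (D.l f))) :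
    z0 (D.l f) < D.h z0 e (D.dir (D.l f)) := by
  have hef : e ≠ f := by rintro rfl; exact lt_irrefl _ hm
  have h1 := seg_order hz hef (q := D.dir (D.l f)) (p := m)
    (fun t h0 h1 => ⟨K_seg hK hem h0 h1, K_seg_l hfm h0 h1⟩) hm
  rw [h_l] at h1
  exact lt_of_le_of_ne h1 (hz.vert e _ hK).symm

lemma above_r (hz : Good D z0) {e f : E} {m : ℝ × ℝ} (hem : D.K e m)
    (hfm : D.K f m) (hm : D.h z0 f m < D.h z0 e m) (hK : D.K e (D.dir (D.r f))) :
    z0 (D.r f) < D.h z0 e (D.dir (D.r f)) := by
  have hef : e ≠ f := by rintro rfl; exact lt_irrefl _ hm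
  have h1 := seg_order hz hef (q := D.dir (D.r f)) (p := m)
    (fun t h0 h1 => ⟨K_seg hK hem h0 h1, K_seg_r hfm h0 h1⟩) hm
  rw [h_r] at h1
  exact lt_of_le_of_ne h1 (hz.vert e _ hK).symm

lemma below_l (hz : Good D z0) {e f : E} {m : ℝ × ℝ} (hem : D.K e m)
    (hfm : D.K f m) (hm : D.h z0 f m < D.h z0 e m) (hK : D.K f (D.dir (D.l e))) :
    D.h z0 f (D.dir (D.l e)) < z0 (D.l e) := by
  have hef : e ≠ f := by rintro rfl; exact lt_irrefl _ hm
  have h1 := seg_order hz hef (q := D.dir (D.l e)) (p := m)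
    (fun t h0 h1 => ⟨K_seg_l hem h0 h1, K_seg hK hfm h0 h1⟩) hm
  rw [h_l] at h1
  exact lt_of_le_of_ne h1 (hz.vert f _ hK)

lemma below_r (hz : Good D z0) {e f : E} {m : ℝ × ℝ} (hem : D.K e m)
    (hfm : D.K f m) (hm : D.h z0 f m < D.h z0 e m) (hK : D.K f (D.dir (D.r e))) :
    D.h z0 f (D.dir (D.r e)) < z0 (D.r e) := by
  have hef : e ≠ f := by rintro rfl; exact lt_irrefl _ hm
  have h1 := seg_order hz hef (q := D.dir (D.r e)) (p := m)
    (fun t h0 h1 => ⟨K_seg_r hem h0 h1, K_seg hK hfm h0 h1⟩) hm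
  rw [h_r] at h1
  exact lt_of_le_of_ne h1 (hz.vert f _ hK)

/-- if the end point of `f` is over `e` then the sectors overlap -/
lemma overlap_l {e f : E} (hK : D.K e (D.dir (D.l f))) : ∃ m, D.K e m ∧ D.K f m := by
  set a := D.dir (D.l f)
  set b := D.dir (D.r f)
  set c := S (D.dir (D.l e)) a with hc
  set c' := S a (D.dir (D.r e)) with hc'
  have hcpos : 0 < c := hK.1
  have hcpos' : 0 < c' := hK.2
  set k := |S (D.dir (D.l e)) b| + |S b (D.dir (D.r e))| + 1 with hk
  have hkpos : 0 < k := by positivity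
  set ε := min c c' / (2 * k) with hε
  have hmin : 0 < min c c' := lt_min hcpos hcpos'
  have hεpos : 0 < ε := by positivity
  have hεk : ε * k = min c c' / 2 := by rw [hε]; field_simp
  refine ⟨(a.1 + ε * b.1, a.2 + ε * b.2), ⟨?_, ?_⟩, ⟨?_, ?_⟩⟩
  · have h1 : S (D.dir (D.l e)) (a.1 + ε * b.1, a.2 + ε * b.2)
        = c + ε * S (D.dir (D.l e)) b := by rw [hc]; unfold S; simp only; ring
    rw [h1]
    have h2 : -|S (D.dir (D.l e)) b| ≤ S (D.dir (D.l e)) b := neg_abs_le _
    have h3 : |S (D.dir (D.l e)) b| ≤ k := by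
      rw [hk]; have := abs_nonneg (S b (D.dir (D.r e))); linarith
    have h4 : ε * |S (D.dir (D.l e)) b| ≤ ε * k := mul_le_mul_of_nonneg_left h3 hεpos.le
    have h5 : ε * (-|S (D.dir (D.l e)) b|) ≤ ε * S (D.dir (D.l e)) b :=
      mul_le_mul_of_nonneg_left h2 hεpos.le
    have h6 : min c c' ≤ c := min_le_left _ _
    linarith
  · have h1 : S (a.1 + ε * b.1, a.2 + ε * b.2) (D.dir (D.r e))
        = c' + ε * S b (D.dir (D.r e)) := by rw [hc']; unfold S; simp only; ring
    rw [h1]
    have h2 : -|S b (D.dir (D.r e))| ≤ S b (D.dir (D.r e)) := neg_abs_le _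
    have h3 : |S b (D.dir (D.r e))| ≤ k := by
      rw [hk]; have := abs_nonneg (S (D.dir (D.l e)) b); linarith
    have h4 : ε * |S b (D.dir (D.r e))| ≤ ε * k := mul_le_mul_of_nonneg_left h3 hεpos.le
    have h5 : ε * (-|S b (D.dir (D.r e))|) ≤ ε * S b (D.dir (D.r e)) :=
      mul_le_mul_of_nonneg_left h2 hεpos.le
    have h6 : min c c' ≤ c' := min_le_right _ _
    linarith
  · have h1 : S a (a.1 + ε * b.1, a.2 + ε * b.2) = ε * S a b := by unfold S; simp only; ring
    rw [h1]; exact mul_pos hεpos (D.pos f)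
  · have h1 : S (a.1 + ε * b.1, a.2 + ε * b.2) b = S a b := by unfold S; simp only; ring
    rw [h1]; exact D.pos f

lemma overlap_r {e f : E} (hK : D.K e (D.dir (D.r f))) : ∃ m, D.K e m ∧ D.K f m := by
  set a := D.dir (D.r f)
  set b := D.dir (D.l f)
  set c := S (D.dir (D.l e)) a with hc
  set c' := S a (D.dir (D.r e)) with hc'
  have hcpos : 0 < c := hK.1
  have hcpos' : 0 < c' := hK.2
  set k := |S (D.dir (D.l e)) b| + |S b (D.dir (D.r e))| + 1 with hk
  have hkpos : 0 < k := by positivity
  set ε := min c c' / (2 * k) with hε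
  have hmin : 0 < min c c' := lt_min hcpos hcpos'
  have hεpos : 0 < ε := by positivity
  have hεk : ε * k = min c c' / 2 := by rw [hε]; field_simp
  refine ⟨(a.1 + ε * b.1, a.2 + ε * b.2), ⟨?_, ?_⟩, ⟨?_, ?_⟩⟩
  · have h1 : S (D.dir (D.l e)) (a.1 + ε * b.1, a.2 + ε * b.2)
        = c + ε * S (D.dir (D.l e)) b := by rw [hc]; unfold S; simp only; ring
    rw [h1]
    have h2 : -|S (D.dir (D.l e)) b| ≤ S (D.dir (D.l e)) b := neg_abs_le _
    have h3 : |S (D.dir (D.l e)) b| ≤ k := by
      rw [hk]; have := abs_nonneg (S b (D.dir (D.r e))); linarith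
    have h4 : ε * |S (D.dir (D.l e)) b| ≤ ε * k := mul_le_mul_of_nonneg_left h3 hεpos.le
    have h5 : ε * (-|S (D.dir (D.l e)) b|) ≤ ε * S (D.dir (D.l e)) b :=
      mul_le_mul_of_nonneg_left h2 hεpos.le
    have h6 : min c c' ≤ c := min_le_left _ _
    linarith
  · have h1 : S (a.1 + ε * b.1, a.2 + ε * b.2) (D.dir (D.r e))
        = c' + ε * S b (D.dir (D.r e)) := by rw [hc']; unfold S; simp only; ring
    rw [h1]
    have h2 : -|S b (D.dir (D.r e))| ≤ S b (D.dir (D.r e)) := neg_abs_le _
    have h3 : |S b (D.dir (D.r e))| ≤ k := by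
      rw [hk]; have := abs_nonneg (S (D.dir (D.l e)) b); linarith
    have h4 : ε * |S b (D.dir (D.r e))| ≤ ε * k := mul_le_mul_of_nonneg_left h3 hεpos.le
    have h5 : ε * (-|S b (D.dir (D.r e))|) ≤ ε * S b (D.dir (D.r e)) :=
      mul_le_mul_of_nonneg_left h2 hεpos.le
    have h6 : min c c' ≤ c' := min_le_right _ _
    linarith
  · have h1 : S b (a.1 + ε * b.1, a.2 + ε * b.2) = S b a := by unfold S; simp only; ring
    rw [h1]; exact D.pos f
  · have h1 : S (a.1 + ε * b.1, a.2 + ε * b.2) a = ε * S b a := by unfold S; simp only; ring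
    rw [h1]; exact mul_pos hεpos (D.pos f)

variable [Fintype V] [Fintype E]

open Classical in
/-- bending moment of the edge `e` in the direction `q` -/
noncomputable def moment (D : Dat V E) (F : V → E → ℝ) (e : E) (q : ℝ × ℝ) : ℝ :=
  - ∑ u, if D.K e (D.dir u) then F u e * D.g e (D.dir u) q else 0

open Classical in
/-- sum of the bending moments above a vertex -/
noncomputable def yy (D : Dat V E) (z0 : V → ℝ) (F : V → E → ℝ) (v : V) : ℝ :=
  ∑ e, if D.K e (D.dir v) ∧ z0 v < D.h z0 e (D.dir v) then moment D F e (D.dir v) else 0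

/-- the certificate of infeasibility -/
structure Cert (D : Dat V E) (z0 : V → ℝ) (F : V → E → ℝ) (ν : V → ℝ) : Prop where
  above : ∀ u e, D.K e (D.dir u) → z0 u < D.h z0 e (D.dir u) → 0 ≤ F u e
  below : ∀ u e, D.K e (D.dir u) → D.h z0 e (D.dir u) < z0 u → F u e ≤ 0
  nonneg : ∀ u, 0 ≤ ν u
  eq : ∀ ζ : V → ℝ, (∑ e, ∑ u, (open Classical in
    if D.K e (D.dir u) then F u e * (D.h ζ e (D.dir u) - ζ u) else 0)) + ∑ u, ν u * ζ u = 0

variable {F : V → E → ℝ} {ν : V → ℝ}

open Classical in
/-- the test function -/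
noncomputable def test (D : Dat V E) (z0 : V → ℝ) (f : E) (d : ℝ × ℝ) (v : V) : ℝ :=
  if D.K f (D.dir v) ∧ D.h z0 f (D.dir v) < z0 v then D.g f (D.dir v) d else 0

open Classical in
/-- the coefficient -/
noncomputable def coef (D : Dat V E) (z0 : V → ℝ) (f : E) (d : ℝ × ℝ) (u : V) (e : E) : ℝ :=
  (if D.K e d ∧ (e = f ∨ D.h z0 f d < D.h z0 e d) then D.g e (D.dir u) d else 0)
    - S d (D.dir (D.r f)) / S (D.dir (D.l f)) (D.dir (D.r f)) *
      (if D.K e (D.dir (D.l f)) ∧ z0 (D.l f) < D.h z0 e (D.dir (D.l f))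
        then D.g e (D.dir u) (D.dir (D.l f)) else 0)
    - S (D.dir (D.l f)) d / S (D.dir (D.l f)) (D.dir (D.r f)) *
      (if D.K e (D.dir (D.r f)) ∧ z0 (D.r f) < D.h z0 e (D.dir (D.r f))
        then D.g e (D.dir u) (D.dir (D.r f)) else 0)

omit [Fintype V] [Fintype E] in
lemma hatf_in {f : E} {p : ℝ × ℝ} (h : D.K f p) (d : ℝ × ℝ) :
    hatf (D.dir (D.l f)) (D.dir (D.r f)) d p = D.g f p d := by
  unfold hatf; exact if_pos h

omit [Fintype V] [Fintype E] in
lemma hatf_out {f : E} {p : ℝ × ℝ} (h : ¬ D.K f p) (d : ℝ × ℝ) :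
    hatf (D.dir (D.l f)) (D.dir (D.r f)) d p = 0 := by
  unfold hatf; exact if_neg h

omit [Fintype V] [Fintype E] in
lemma h_zero {ζ : V → ℝ} {e : E} (h1 : ζ (D.l e) = 0) (h2 : ζ (D.r e) = 0) (p : ℝ × ℝ) :
    D.h ζ e p = 0 := by
  unfold Dat.h H; rw [h1, h2]; simp

/-- the pointwise inequality -/
lemma pointwise (hz : Good D z0) (hc : Cert D z0 F ν) {f : E} {d : ℝ × ℝ} (hd : D.K f d)
    (u : V) (e : E) (hu : D.K e (D.dir u)) :
    0 ≤ F u e * (coef D z0 f d u e
      + (D.h (test D z0 f d) e (D.dir u) - test D z0 f d u)) := by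
  classical
  by_cases hef : e = f
  · subst hef
    have hl : test D z0 e d (D.l e) = 0 := by
      unfold test; rw [if_neg (fun h => not_K_l e h.1)]
    have hr : test D z0 e d (D.r e) = 0 := by
      unfold test; rw [if_neg (fun h => not_K_r e h.1)]
    rw [h_zero hl hr]
    have hcoef : coef D z0 e d u e = D.g e (D.dir u) d := by
      unfold coef
      rw [if_pos ⟨hd, Or.inl rfl⟩, if_neg (fun h => not_K_l e h.1),
        if_neg (fun h => not_K_r e h.1)]
      ring
    rw [hcoef]
    rcases lt_or_gt_of_ne (hz.vert e u hu) with h | h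
    · have : test D z0 e d u = D.g e (D.dir u) d := by
        unfold test; rw [if_pos ⟨hu, h⟩]
      rw [this]
      apply le_of_eq; ring
    · have : test D z0 e d u = 0 := by
        unfold test; rw [if_neg (fun h' => by linarith [h'.2])]
      rw [this]
      have h1 : 0 < D.g e (D.dir u) d := G_pos (D.pos e) hu hd
      have h2 := hc.above u e hu h
      have : F u e * (D.g e (D.dir u) d + (0 - 0)) = F u e * D.g e (D.dir u) d := by ring
      rw [this]
      positivity
  · by_cases hov : ∃ m, D.K e m ∧ D.K f m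
    · obtain ⟨m, hem, hfm⟩ := hov
      rcases lt_or_gt_of_ne (hz.edge e f hef m hem hfm) with hlt | hlt
      · -- e below f
        have hl : test D z0 f d (D.l e) = 0 := by
          unfold test
          rw [if_neg (fun h => by
            have := above_l hz hfm hem hlt h.1
            linarith [h.2])]
        have hr : test D z0 f d (D.r e) = 0 := by
          unfold test
          rw [if_neg (fun h => by
            have := above_r hz hfm hem hlt h.1
            linarith [h.2])]
        rw [h_zero hl hr]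
        have hcoef : coef D z0 f d u e = 0 := by
          unfold coef
          rw [if_neg, if_neg, if_neg]
          · ring
          · rintro ⟨h1, h2⟩
            have := below_r hz hfm hem hlt h1
            linarith
          · rintro ⟨h1, h2⟩
            have := below_l hz hfm hem hlt h1
            linarith
          · rintro ⟨h1, h2⟩
            rcases h2 with h2 | h2
            · exact hef h2
            · have := order_const hz hfm hem hd h1 hlt
              linarith
        rw [hcoef]
        by_cases ht : D.K f (D.dir u) ∧ D.h z0 f (D.dir u) < z0 u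
        · have h1 : test D z0 f d u = D.g f (D.dir u) d := by
            unfold test; rw [if_pos ht]
          rw [h1]
          have h2 : 0 < D.g f (D.dir u) d := G_pos (D.pos f) ht.1 hd
          have h3 := order_const hz hfm hem ht.1 hu hlt
          have h4 := hc.below u e hu (by linarith [ht.2])
          have : F u e * (0 + (0 - D.g f (D.dir u) d)) = (- F u e) * D.g f (D.dir u) d := by ring
          rw [this]
          exact mul_nonneg (by linarith) h2.le
        · have h1 : test D z0 f d u = 0 := by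
            unfold test; rw [if_neg ht]
          rw [h1]; simp
      · -- e above f
        have hl : test D z0 f d (D.l e)
            = hatf (D.dir (D.l f)) (D.dir (D.r f)) d (D.dir (D.l e)) := by
          unfold test
          by_cases hK : D.K f (D.dir (D.l e))
          · rw [if_pos ⟨hK, below_l hz hem hfm hlt hK⟩, hatf_in hK]
          · rw [if_neg (fun h => hK h.1), hatf_out hK]
        have hr : test D z0 f d (D.r e)
            = hatf (D.dir (D.l f)) (D.dir (D.r f)) d (D.dir (D.r e)) := by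
          unfold test
          by_cases hK : D.K f (D.dir (D.r e))
          · rw [if_pos ⟨hK, below_r hz hem hfm hlt hK⟩, hatf_in hK]
          · rw [if_neg (fun h => hK h.1), hatf_out hK]
        have hh : D.h (test D z0 f d) e (D.dir u)
            = H (hatf (D.dir (D.l f)) (D.dir (D.r f)) d (D.dir (D.l e)))
              (hatf (D.dir (D.l f)) (D.dir (D.r f)) d (D.dir (D.r e)))
              (D.dir (D.l e)) (D.dir (D.r e)) (D.dir u) := by
          unfold Dat.h; rw [hl, hr]
        have hhat := hat (D.pos e) (D.pos f) hem hfm hu hd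
        have hcoef : coef D z0 f d u e
            = - (H (hatf (D.dir (D.l f)) (D.dir (D.r f)) d (D.dir (D.l e)))
              (hatf (D.dir (D.l f)) (D.dir (D.r f)) d (D.dir (D.r e)))
              (D.dir (D.l e)) (D.dir (D.r e)) (D.dir u)
              - hatf (D.dir (D.l f)) (D.dir (D.r f)) d (D.dir u)) := by
          rw [hhat]
          unfold coef
          have e1 : (D.K e d ∧ (e = f ∨ D.h z0 f d < D.h z0 e d)) ↔ D.K e d :=
            ⟨fun h => h.1, fun h => ⟨h, Or.inr (order_const hz hem hfm h hd hlt)⟩⟩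
          have e2 : (D.K e (D.dir (D.l f)) ∧ z0 (D.l f) < D.h z0 e (D.dir (D.l f)))
              ↔ D.K e (D.dir (D.l f)) :=
            ⟨fun h => h.1, fun h => ⟨h, above_l hz hem hfm hlt h⟩⟩
          have e3 : (D.K e (D.dir (D.r f)) ∧ z0 (D.r f) < D.h z0 e (D.dir (D.r f)))
              ↔ D.K e (D.dir (D.r f)) :=
            ⟨fun h => h.1, fun h => ⟨h, above_r hz hem hfm hlt h⟩⟩
          simp only [e1, e2, e3]
          unfold Dat.g Dat.K
          ring
        rw [hh, hcoef]
        by_cases hKu : D.K f (D.dir u)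
        · have h1 : hatf (D.dir (D.l f)) (D.dir (D.r f)) d (D.dir u) = D.g f (D.dir u) d :=
            hatf_in hKu d
          rw [h1]
          rcases lt_or_gt_of_ne (hz.vert f u hKu) with h | h
          · have : test D z0 f d u = D.g f (D.dir u) d := by
              unfold test; rw [if_pos ⟨hKu, h⟩]
            rw [this]; apply le_of_eq; ring
          · have : test D z0 f d u = 0 := by
              unfold test; rw [if_neg (fun h' => by linarith [h'.2])]
            rw [this]
            have h2 : 0 < D.g f (D.dir u) d := G_pos (D.pos f) hKu hd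
            have h3 := order_const hz hem hfm hu hKu hlt
            have h4 := hc.above u e hu (by linarith)
            have h5 := mul_nonneg h4 h2.le
            refine le_of_le_of_eq h5 ?_
            ring
        · have h1 : hatf (D.dir (D.l f)) (D.dir (D.r f)) d (D.dir u) = 0 := hatf_out hKu d
          have h2 : test D z0 f d u = 0 := by
            unfold test; rw [if_neg (fun h => hKu h.1)]
          rw [h1, h2]; apply le_of_eq; ring
    · -- no overlap
      have hl : test D z0 f d (D.l e) = 0 := by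
        unfold test
        rw [if_neg]
        rintro ⟨h, -⟩
        obtain ⟨m, h1, h2⟩ := overlap_l (e := f) (f := e) h
        exact hov ⟨m, h2, h1⟩
      have hr : test D z0 f d (D.r e) = 0 := by
        unfold test
        rw [if_neg]
        rintro ⟨h, -⟩
        obtain ⟨m, h1, h2⟩ := overlap_r (e := f) (f := e) h
        exact hov ⟨m, h2, h1⟩
      have hu0 : test D z0 f d u = 0 := by
        unfold test
        rw [if_neg]
        rintro ⟨h, -⟩
        exact hov ⟨_, hu, h⟩
      have hcoef : coef D z0 f d u e = 0 := by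
        unfold coef
        rw [if_neg, if_neg, if_neg]
        · ring
        · rintro ⟨h, -⟩
          exact hov (overlap_r h)
        · rintro ⟨h, -⟩
          exact hov (overlap_l h)
        · rintro ⟨h, -⟩
          exact hov ⟨_, h, hd⟩
      rw [h_zero hl hr, hu0, hcoef]; simp

open Classical in
/-- Claim 1: the moments of the edges at or above `f` are bounded by the interpolation of
`yy` along `f` -/
lemma claim1 (hz : Good D z0) (hc : Cert D z0 F ν) {f : E} {d : ℝ × ℝ} (hd : D.K f d) :
    ∑ e, (if D.K e d ∧ (e = f ∨ D.h z0 f d < D.h z0 e d) then moment D F e d else 0)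
      ≤ D.h (yy D z0 F) f d := by
  set κl := S d (D.dir (D.r f)) / S (D.dir (D.l f)) (D.dir (D.r f)) with hκl
  set κr := S (D.dir (D.l f)) d / S (D.dir (D.l f)) (D.dir (D.r f)) with hκr
  -- expand everything as a double sum
  have e1 : ∑ e, (if D.K e d ∧ (e = f ∨ D.h z0 f d < D.h z0 e d) then moment D F e d else 0)
      = - ∑ e, ∑ u, (if D.K e (D.dir u) then F u e *
        (if D.K e d ∧ (e = f ∨ D.h z0 f d < D.h z0 e d) then D.g e (D.dir u) d else 0)
          else 0) := by
    rw [← Finset.sum_neg_distrib]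
    refine Finset.sum_congr rfl fun e _ => ?_
    split_ifs with h
    · rfl
    · simp
  have e2 : ∀ q : V, yy D z0 F q = - ∑ e, ∑ u, (if D.K e (D.dir u) then F u e *
        (if D.K e (D.dir q) ∧ z0 q < D.h z0 e (D.dir q) then D.g e (D.dir u) (D.dir q) else 0)
          else 0) := by
    intro q
    unfold yy
    rw [← Finset.sum_neg_distrib]
    refine Finset.sum_congr rfl fun e _ => ?_
    split_ifs with h
    · rfl
    · simp
  have e3 : D.h (yy D z0 F) f d = κl * yy D z0 F (D.l f) + κr * yy D z0 F (D.r f) := by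
    unfold Dat.h H
    rw [hκl, hκr]
    have := (D.pos f).ne'
    field_simp
  have e4 : (∑ e, ∑ u, (if D.K e (D.dir u) then F u e * coef D z0 f d u e else 0))
      = (∑ e, ∑ u, (if D.K e (D.dir u) then F u e *
        (if D.K e d ∧ (e = f ∨ D.h z0 f d < D.h z0 e d) then D.g e (D.dir u) d else 0)
          else 0))
        - κl * (∑ e, ∑ u, (if D.K e (D.dir u) then F u e *
        (if D.K e (D.dir (D.l f)) ∧ z0 (D.l f) < D.h z0 e (D.dir (D.l f))
          then D.g e (D.dir u) (D.dir (D.l f)) else 0) else 0))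
        - κr * (∑ e, ∑ u, (if D.K e (D.dir u) then F u e *
        (if D.K e (D.dir (D.r f)) ∧ z0 (D.r f) < D.h z0 e (D.dir (D.r f))
          then D.g e (D.dir u) (D.dir (D.r f)) else 0) else 0)) := by
    rw [Finset.mul_sum, Finset.mul_sum, ← Finset.sum_sub_distrib, ← Finset.sum_sub_distrib]
    refine Finset.sum_congr rfl fun e _ => ?_
    rw [Finset.mul_sum, Finset.mul_sum, ← Finset.sum_sub_distrib, ← Finset.sum_sub_distrib]
    refine Finset.sum_congr rfl fun u _ => ?_
    by_cases h : D.K e (D.dir u)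
    · simp only [if_pos h]
      unfold coef
      rw [← hκl, ← hκr]
      ring
    · simp only [if_neg h]; ring
  -- the pointwise inequality summed
  have e5 : 0 ≤ ∑ e, ∑ u, (if D.K e (D.dir u) then F u e * (coef D z0 f d u e
      + (D.h (test D z0 f d) e (D.dir u) - test D z0 f d u)) else 0) := by
    refine Finset.sum_nonneg fun e _ => Finset.sum_nonneg fun u _ => ?_
    split_ifs with h
    · exact pointwise hz hc hd u e h
    · exact le_refl _
  have e6 : ∑ e, ∑ u, (if D.K e (D.dir u) then F u e * (coef D z0 f d u e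
      + (D.h (test D z0 f d) e (D.dir u) - test D z0 f d u)) else 0)
      = (∑ e, ∑ u, (if D.K e (D.dir u) then F u e * coef D z0 f d u e else 0))
        + (∑ e, ∑ u, (if D.K e (D.dir u) then F u e *
          (D.h (test D z0 f d) e (D.dir u) - test D z0 f d u) else 0)) := by
    rw [← Finset.sum_add_distrib]
    refine Finset.sum_congr rfl fun e _ => ?_
    rw [← Finset.sum_add_distrib]
    refine Finset.sum_congr rfl fun u _ => ?_
    split_ifs <;> ring
  have e7 := hc.eq (test D z0 f d)
  have e8 : 0 ≤ ∑ u, ν u * test D z0 f d u := by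
    refine Finset.sum_nonneg fun u _ => mul_nonneg (hc.nonneg u) ?_
    unfold test
    split_ifs with h
    · exact (G_pos (D.pos f) h.1 hd).le
    · exact le_refl _
  rw [e3, e1, e2 (D.l f), e2 (D.r f)]
  rw [e6, e4] at e5
  have e9 : (∑ e, ∑ u, (if D.K e (D.dir u) then F u e *
          (D.h (test D z0 f d) e (D.dir u) - test D z0 f d u) else 0)) ≤ 0 := by
    linarith
  linarith

/-- sunk heights: `x > 0` and `- x` keeps the edges above -/
structure Sunk (D : Dat V E) (z0 x : V → ℝ) : Prop where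
  pos : ∀ v, 0 < x v
  lt : ∀ e u, D.K e (D.dir u) → z0 u < D.h z0 e (D.dir u) → D.h x e (D.dir u) < x u

omit [Fintype V] [Fintype E] in
lemma h_mono {x y : V → ℝ} {e : E} {p : ℝ × ℝ} (hp : D.K e p) (h1 : x (D.l e) ≤ y (D.l e))
    (h2 : x (D.r e) ≤ y (D.r e)) : D.h x e p ≤ D.h y e p := by
  unfold Dat.h H
  apply div_le_div_of_nonneg_right _ (D.pos e).le
  exact add_le_add (mul_le_mul_of_nonneg_right h1 hp.2.le)
    (mul_le_mul_of_nonneg_right h2 hp.1.le)

omit [Fintype V] [Fintype E] in
lemma h_smul (c : ℝ) (x : V → ℝ) (e : E) (p : ℝ × ℝ) :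
    D.h (fun v => c * x v) e p = c * D.h x e p := by
  unfold Dat.h H; ring

/-- maximum principle -/
lemma yy_nonpos {x : V → ℝ} (hz : Good D z0) (hc : Cert D z0 F ν) (hx : Sunk D z0 x) (v : V) :
    yy D z0 F v ≤ 0 := by
  classical
  by_contra hcon
  push Not at hcon
  obtain ⟨u, -, hmax⟩ := Finset.exists_max_image (Finset.univ : Finset V)
    (fun v => yy D z0 F v / x v) ⟨v, Finset.mem_univ v⟩
  set M := yy D z0 F u / x u with hM
  have hMpos : 0 < M := by
    have h1 := hmax v (Finset.mem_univ v)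
    have h2 : 0 < yy D z0 F v / x v := div_pos hcon (hx.pos v)
    linarith
  have hle : ∀ w, yy D z0 F w ≤ M * x w := by
    intro w
    have h1 := hmax w (Finset.mem_univ w)
    rwa [div_le_iff₀ (hx.pos w)] at h1
  have hu : yy D z0 F u = M * x u := by
    rw [hM]; have := (hx.pos u).ne'; field_simp
  -- the lowest edge above u
  set A : Finset E := Finset.univ.filter
    (fun e => D.K e (D.dir u) ∧ z0 u < D.h z0 e (D.dir u)) with hA
  by_cases hne : A.Nonempty
  · obtain ⟨f, hfA, hmin⟩ := Finset.exists_min_image A (fun e => D.h z0 e (D.dir u)) hne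
    simp only [hA, Finset.mem_filter, Finset.mem_univ, true_and] at hfA hmin
    have h1 := claim1 hz hc (f := f) (d := D.dir u) hfA.1
    have h2 : ∑ e, (if D.K e (D.dir u) ∧ (e = f ∨ D.h z0 f (D.dir u) < D.h z0 e (D.dir u))
        then moment D F e (D.dir u) else 0) = yy D z0 F u := by
      unfold yy
      refine Finset.sum_congr rfl fun e _ => ?_
      have : (D.K e (D.dir u) ∧ (e = f ∨ D.h z0 f (D.dir u) < D.h z0 e (D.dir u)))
          ↔ (D.K e (D.dir u) ∧ z0 u < D.h z0 e (D.dir u)) := by
        constructor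
        · rintro ⟨h, h' | h'⟩
          · rw [h']; exact hfA
          · exact ⟨h, hfA.2.trans h'⟩
        · rintro ⟨h, h'⟩
          refine ⟨h, ?_⟩
          by_cases hef : e = f
          · exact Or.inl hef
          · exact Or.inr (lt_of_le_of_ne (hmin e ⟨h, h'⟩)
              (hz.edge e f hef _ h hfA.1).symm)
      simp only [this]
    rw [h2] at h1
    have h3 : D.h (yy D z0 F) f (D.dir u) ≤ D.h (fun v => M * x v) f (D.dir u) :=
      h_mono hfA.1 (hle _) (hle _)
    rw [h_smul] at h3
    have h4 := hx.lt f u hfA.1 hfA.2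
    have h5 : M * D.h x f (D.dir u) < M * x u := mul_lt_mul_of_pos_left h4 hMpos
    linarith
  · have h0 : yy D z0 F u = 0 := by
      unfold yy
      apply Finset.sum_eq_zero
      intro e _
      rw [if_neg]
      intro h
      exact hne ⟨e, by simp only [hA, Finset.mem_filter, Finset.mem_univ, true_and]; exact h⟩
    rw [h0] at hu
    have : 0 < M * x u := mul_pos hMpos (hx.pos u)
    linarith

open Classical in
/-- the total moment is nonpositive in every direction -/
lemma total_nonpos {x : V → ℝ} (hz : Good D z0) (hc : Cert D z0 F ν) (hx : Sunk D z0 x)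
    (m : ℝ × ℝ) : ∑ e, (if D.K e m then moment D F e m else 0) ≤ 0 := by
  set A : Finset E := Finset.univ.filter (fun e => D.K e m) with hA
  by_cases hne : A.Nonempty
  · obtain ⟨f, hfA, hmin⟩ := Finset.exists_min_image A (fun e => D.h z0 e m) hne
    simp only [hA, Finset.mem_filter, Finset.mem_univ, true_and] at hfA hmin
    have h1 := claim1 hz hc (f := f) (d := m) hfA
    have h2 : ∑ e, (if D.K e m ∧ (e = f ∨ D.h z0 f m < D.h z0 e m)
        then moment D F e m else 0) = ∑ e, (if D.K e m then moment D F e m else 0) := by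
      refine Finset.sum_congr rfl fun e _ => ?_
      have : (D.K e m ∧ (e = f ∨ D.h z0 f m < D.h z0 e m)) ↔ D.K e m := by
        constructor
        · exact fun h => h.1
        · intro h
          refine ⟨h, ?_⟩
          by_cases hef : e = f
          · exact Or.inl hef
          · exact Or.inr (lt_of_le_of_ne (hmin e h) (hz.edge e f hef _ h hfA).symm)
      simp only [this]
    rw [h2] at h1
    have h3 : D.h (yy D z0 F) f m ≤ D.h (fun _ => (0 : ℝ)) f m :=
      h_mono hfA (yy_nonpos hz hc hx _) (yy_nonpos hz hc hx _)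
    have h4 : D.h (fun _ => (0 : ℝ)) f m = 0 := h_zero rfl rfl m
    linarith
  · apply le_of_eq
    apply Finset.sum_eq_zero
    intro e _
    rw [if_neg]
    intro h
    exact hne ⟨e, by simp only [hA, Finset.mem_filter, Finset.mem_univ, true_and]; exact h⟩

/-- there is no certificate with `ν ≠ 0` -/
theorem no_cert {x : V → ℝ} (hz : Good D z0) (hc : Cert D z0 F ν) (hx : Sunk D z0 x)
    {v : V} (hv : D.dir v ≠ 0) : ν v = 0 := by
  classical
  set m : ℝ × ℝ := ((D.dir v).2, - (D.dir v).1) with hm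
  have hSm : 0 < S m (D.dir v) := by
    have h1 : S m (D.dir v) = (D.dir v).1 ^ 2 + (D.dir v).2 ^ 2 := by
      rw [hm]; unfold S; simp only; ring
    rw [h1]
    by_contra hcon
    apply hv
    have h2 : (D.dir v).1 = 0 := by
      nlinarith [sq_nonneg (D.dir v).1, sq_nonneg (D.dir v).2]
    have h3 : (D.dir v).2 = 0 := by
      nlinarith [sq_nonneg (D.dir v).1, sq_nonneg (D.dir v).2]
    exact Prod.ext h2 h3
  have h1 := hc.eq (fun u => max 0 (S m (D.dir u)))
  have h2 : ∀ q : ℝ × ℝ, ∑ e, (if D.K e q then moment D F e q else 0)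
      = - ∑ e, ∑ u, (if D.K e (D.dir u) then F u e *
        (if D.K e q then D.g e (D.dir u) q else 0) else 0) := by
    intro q
    rw [← Finset.sum_neg_distrib]
    refine Finset.sum_congr rfl fun e _ => ?_
    split_ifs with h
    · rfl
    · simp
  have h3 : (∑ e, ∑ u, (if D.K e (D.dir u) then F u e *
      (D.h (fun u => max 0 (S m (D.dir u))) e (D.dir u) - max 0 (S m (D.dir u))) else 0))
      = - (∑ e, (if D.K e m then moment D F e m else 0))
        - ∑ e, (if D.K e (-m) then moment D F e (-m) else 0) := by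
    rw [h2 m, h2 (-m), neg_neg, sub_neg_eq_add, ← Finset.sum_add_distrib]
    refine Finset.sum_congr rfl fun e _ => ?_
    rw [← Finset.sum_add_distrib]
    refine Finset.sum_congr rfl fun u _ => ?_
    by_cases hK : D.K e (D.dir u)
    · simp only [if_pos hK]
      have h4 := posPart_kink (m := m) (D.pos e) hK
      have h5 : D.h (fun u => max 0 (S m (D.dir u))) e (D.dir u) - max 0 (S m (D.dir u))
          = (if D.K e m then D.g e (D.dir u) m else 0)
            + (if D.K e (-m) then D.g e (D.dir u) (-m) else 0) := h4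
      rw [h5]; ring
    · simp only [if_neg hK]; ring
  have h6 := total_nonpos hz hc hx m
  have h7 := total_nonpos hz hc hx (-m)
  have h8 : ∀ u ∈ (Finset.univ : Finset V), 0 ≤ ν u * max 0 (S m (D.dir u)) :=
    fun u _ => mul_nonneg (hc.nonneg u) (le_max_left _ _)
  have h9 : ∑ u, ν u * max 0 (S m (D.dir u)) ≤ 0 := by
    have h1' : (∑ e, ∑ u, (if D.K e (D.dir u) then F u e *
      (D.h (fun u => max 0 (S m (D.dir u))) e (D.dir u) - max 0 (S m (D.dir u))) else 0))
      + ∑ u, ν u * max 0 (S m (D.dir u)) = 0 := h1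
    rw [h3] at h1'
    linarith
  have h10 : ν v * max 0 (S m (D.dir v)) ≤ 0 :=
    (Finset.single_le_sum h8 (Finset.mem_univ v)).trans h9
  rw [max_eq_right hSm.le] at h10
  have h11 := hc.nonneg v
  by_contra hne
  have : 0 < ν v := lt_of_le_of_ne h11 (Ne.symm hne)
  have : 0 < ν v * S m (D.dir v) := mul_pos this hSm
  linarith

end core

end Pool.Agent.Lib.MP_731b42_co
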