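import Mathlib

/-!
# Shortest-path embeddings on the sphere and longitudinal morphs: definitions
-/

namespace Pool.Agent.Lib.MP_731b42_co

/-- Euclidean three-space; the sphere is the set of vectors of norm one. -/
abbrev E3 : Type := EuclideanSpace ℝ (Fin 3)

/-- The shortest great-circular arc between two points `p`, `q` of the sphere that are neither
equal nor antipodal: the points of the sphere of the form `a p + b q` with `a, b ≥ 0`. -/
def arc (p q : E3) : Set E3 :=
  {x | ‖x‖ = 1 ∧ ∃ a b : ℝ, 0 ≤ a ∧ 0 ≤ b ∧ x = a • p + b • q}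

/-- The great circle orthogonal to the nonzero vector `m`. -/
def greatCircle (m : E3) : Set E3 := {x | ‖x‖ = 1 ∧ inner ℝ m x = 0}

/-- The north pole `(0, 0, 1)`. -/
noncomputable def northPole : E3 := EuclideanSpace.single 2 1

/-- `P` is an embedding of the graph `G` in the sphere in which every edge is the great-circular
arc of length less than `π` between its end points: the vertices are distinct points of the
sphere, the ends of an edge are not antipodal, a vertex lies on an edge only if it is an end of
the edge, and two different edges meet only in common ends. -/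
structure IsShortestPathEmbedding {n : ℕ} (G : SimpleGraph (Fin n)) (P : Fin n → E3) : Prop where
  on_sphere : ∀ v, ‖P v‖ = 1
  injective : Function.Injective P
  short : ∀ u v, G.Adj u v → P u ≠ - P v
  vertex_edge : ∀ u v w, G.Adj u v → w ≠ u → w ≠ v → P w ∉ arc (P u) (P v)
  edge_edge : ∀ u v u' v', G.Adj u v → G.Adj u' v' → s(u, v) ≠ s(u', v') →
    ∀ x, x ∈ arc (P u) (P v) → x ∈ arc (P u') (P v') →
      ∃ w, (w = u ∨ w = v) ∧ (w = u' ∨ w = v') ∧ x = P w

/-- The genericity convention: no great circle contains more than two vertices, and no great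
circle through the poles contains more than one vertex. -/
structure IsGeneric {n : ℕ} (P : Fin n → E3) : Prop where
  no_three : ∀ m : E3, m ≠ 0 → ∀ u v w, u ≠ v → v ≠ w → u ≠ w →
    ¬ (P u ∈ greatCircle m ∧ P v ∈ greatCircle m ∧ P w ∈ greatCircle m)
  no_two : ∀ m : E3, m ≠ 0 → northPole ∈ greatCircle m → ∀ u v, u ≠ v →
    ¬ (P u ∈ greatCircle m ∧ P v ∈ greatCircle m)

/-- `q` lies on the longitude (open great half circle between the poles) of the point `p`, which
is not a pole. -/
def SameLongitude (p q : E3) : Prop :=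
  (p 0 ≠ 0 ∨ p 1 ≠ 0) ∧ ∃ c : ℝ, 0 < c ∧ q 0 = c * p 0 ∧ q 1 = c * p 1

/-- `Γ` is a longitudinal morph from `P` to `Q`: a continuous family of shortest-path embeddings
of `G` from `P` to `Q` during which every vertex stays on its longitude. -/
structure IsLongitudinalMorph {n : ℕ} (G : SimpleGraph (Fin n)) (P Q : Fin n → E3)
    (Γ : ℝ → Fin n → E3) : Prop where
  start : Γ 0 = P
  finish : Γ 1 = Q
  continuous : ∀ v, ContinuousOn (fun t => Γ t v) (Set.Icc 0 1)
  embedding : ∀ t ∈ Set.Icc (0 : ℝ) 1, IsShortestPathEmbedding G (Γ t)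
  longitude : ∀ t ∈ Set.Icc (0 : ℝ) 1, ∀ v, SameLongitude (P v) (Γ t v)

/-- some longitudinal morph carries `P` strictly below the equator -/
def Sinkable {n : ℕ} (G : SimpleGraph (Fin n)) (P : Fin n → E3) : Prop :=
  ∃ Q Γ, IsLongitudinalMorph G P Q Γ ∧ ∀ v, Q v 2 < 0

/-- some longitudinal morph carries `P` strictly above the equator -/
def Floatable {n : ℕ} (G : SimpleGraph (Fin n)) (P : Fin n → E3) : Prop :=
  ∃ Q Γ, IsLongitudinalMorph G P Q Γ ∧ ∀ v, 0 < Q v 2

/-- some longitudinal morph carries `P` to a generic embedding strictly below the equator -/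
def GenericallySinkable {n : ℕ} (G : SimpleGraph (Fin n)) (P : Fin n → E3) : Prop :=
  ∃ Q Γ, IsLongitudinalMorph G P Q Γ ∧ IsGeneric Q ∧ ∀ v, Q v 2 < 0

/-- some longitudinal morph carries `P` to a generic embedding strictly above the equator -/
def GenericallyFloatable {n : ℕ} (G : SimpleGraph (Fin n)) (P : Fin n → E3) : Prop :=
  ∃ Q Γ, IsLongitudinalMorph G P Q Γ ∧ IsGeneric Q ∧ ∀ v, 0 < Q v 2

end Pool.Agent.Lib.MP_731b42_co
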