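import Mathlib

/-!
# Plane geometry of directions: sectors, interpolation, Green functions
-/

namespace Pool.Agent.Lib.MP_731b42_co

/-- determinant of two plane vectors -/
def S (p q : ℝ × ℝ) : ℝ := p.1 * q.2 - p.2 * q.1

lemma S_anti (p q : ℝ × ℝ) : S p q = - S q p := by unfold S; ring

@[simp] lemma S_self (p : ℝ × ℝ) : S p p = 0 := by unfold S; ring

lemma pl (a b c d : ℝ × ℝ) : S a b * S c d + S a d * S b c = S a c * S b d := by
  unfold S; ring

/-- the open sector from `l` to `r` -/
def inK (l r p : ℝ × ℝ) : Prop := 0 < S l p ∧ 0 < S p r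

/-- linear interpolation -/
noncomputable def H (zl zr : ℝ) (l r p : ℝ × ℝ) : ℝ := (zl * S p r + zr * S l p) / S l r

/-- Green function of a sector -/
noncomputable def G (l r p q : ℝ × ℝ) : ℝ := min (S l q * S p r) (S l p * S q r) / S l r

lemma G_comm (l r p q : ℝ × ℝ) : G l r p q = G l r q p := by
  unfold G; rw [min_comm]

lemma G_pos {l r p q : ℝ × ℝ} (h : 0 < S l r) (hp : inK l r p) (hq : inK l r q) :
    0 < G l r p q := by
  unfold G
  apply div_pos _ h
  exact lt_min (mul_pos hq.1 hp.2) (mul_pos hp.1 hq.2)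

/-- `S q p * S l r = S l p * S q r - S l q * S p r` -/
lemma pl2 (l r p q : ℝ × ℝ) : S q p * S l r = S l p * S q r - S l q * S p r := by
  unfold S; ring

section ang
variable (m : ℝ × ℝ)

/-- the complex number with argument the angle from `m` to `p` -/
noncomputable def w (p : ℝ × ℝ) : ℂ := ⟨p.1 * m.1 + p.2 * m.2, m.1 * p.2 - m.2 * p.1⟩

/-- the angle from `m` to `p` -/
noncomputable def ang (p : ℝ × ℝ) : ℝ := Complex.arg (w m p)

lemma w_im (p : ℝ × ℝ) : (w m p).im = S m p := rfl

lemma w_re (p : ℝ × ℝ) : (w m p).re = p.1 * m.1 + p.2 * m.2 := rfl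

lemma S_ang (p q : ℝ × ℝ) : (m.1 ^ 2 + m.2 ^ 2) * S q p
    = ‖w m p‖ * ‖w m q‖ * Real.sin (ang m p - ang m q) := by
  have h1 := Complex.norm_mul_sin_arg (w m p)
  have h2 := Complex.norm_mul_cos_arg (w m p)
  have h3 := Complex.norm_mul_sin_arg (w m q)
  have h4 := Complex.norm_mul_cos_arg (w m q)
  rw [Real.sin_sub]
  have e : ‖w m p‖ * ‖w m q‖ * (Real.sin (ang m p) * Real.cos (ang m q)
      - Real.cos (ang m p) * Real.sin (ang m q))
      = (‖w m p‖ * Real.sin (ang m p)) * (‖w m q‖ * Real.cos (ang m q))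
        - (‖w m p‖ * Real.cos (ang m p)) * (‖w m q‖ * Real.sin (ang m q)) := by ring
  rw [e]
  unfold ang
  rw [h1, h2, h3, h4, w_im, w_im, w_re, w_re]
  unfold S; ring

variable {m}

lemma m_pos {p : ℝ × ℝ} (h : S m p ≠ 0) : 0 < m.1 ^ 2 + m.2 ^ 2 := by
  by_contra hcon
  have h1 : m.1 = 0 := by nlinarith [sq_nonneg m.1, sq_nonneg m.2]
  have h2 : m.2 = 0 := by nlinarith [sq_nonneg m.1, sq_nonneg m.2]
  apply h; unfold S; rw [h1, h2]; ring

lemma w_ne {p : ℝ × ℝ} (hm : 0 < m.1 ^ 2 + m.2 ^ 2) {q : ℝ × ℝ} (h : S q p ≠ 0) : w m p ≠ 0 := by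
  intro hw
  have h1 : m.1 * p.2 - m.2 * p.1 = 0 := by
    have := congrArg Complex.im hw; simpa [w] using this
  have h2 : p.1 * m.1 + p.2 * m.2 = 0 := by
    have := congrArg Complex.re hw; simpa [w] using this
  have h3 : (m.1 ^ 2 + m.2 ^ 2) * p.1 = 0 := by
    linear_combination m.1 * h2 - m.2 * h1
  have h4 : (m.1 ^ 2 + m.2 ^ 2) * p.2 = 0 := by
    linear_combination m.2 * h2 + m.1 * h1
  have h5 : p.1 = 0 := (mul_eq_zero.1 h3).resolve_left hm.ne'
  have h6 : p.2 = 0 := (mul_eq_zero.1 h4).resolve_left hm.ne'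
  apply h; unfold S; rw [h5, h6]; ring

/-- sign of `S` through angles -/
lemma S_pos_iff (hm : 0 < m.1 ^ 2 + m.2 ^ 2) {p q : ℝ × ℝ} (hp : w m p ≠ 0) (hq : w m q ≠ 0) :
    0 < S q p ↔ 0 < Real.sin (ang m p - ang m q) := by
  have h := S_ang m p q
  have h1 : 0 < ‖w m p‖ * ‖w m q‖ := mul_pos (norm_pos_iff.2 hp) (norm_pos_iff.2 hq)
  constructor
  · intro h2
    have : 0 < (m.1 ^ 2 + m.2 ^ 2) * S q p := mul_pos hm h2
    rw [h] at this
    exact (mul_pos_iff_of_pos_left h1).1 this
  · intro h2
    have : 0 < ‖w m p‖ * ‖w m q‖ * Real.sin (ang m p - ang m q) := mul_pos h1 h2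
    rw [← h] at this
    exact (mul_pos_iff_of_pos_left hm).1 this

lemma S_eq_zero_of_ang (hm : 0 < m.1 ^ 2 + m.2 ^ 2) {p q : ℝ × ℝ} (h : ang m p = ang m q) :
    S q p = 0 := by
  have h1 := S_ang m p q
  rw [h, sub_self, Real.sin_zero, mul_zero] at h1
  exact (mul_eq_zero.1 h1).resolve_left hm.ne'

lemma sin_pos_iff' {x : ℝ} (h1 : -Real.pi < x) (h2 : x < 2 * Real.pi) :
    0 < Real.sin x ↔ 0 < x ∧ x < Real.pi := by
  constructor
  · intro h
    constructor
    · by_contra hx
      push Not at hx
      have := Real.sin_nonpos_of_nonpos_of_neg_pi_le hx h1.le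
      linarith
    · by_contra hx
      push Not at hx
      have h3 : Real.sin x = - Real.sin (x - Real.pi) := by
        rw [Real.sin_sub_pi]; ring
      have h4 : 0 ≤ Real.sin (x - Real.pi) :=
        Real.sin_nonneg_of_nonneg_of_le_pi (by linarith) (by linarith)
      linarith
  · rintro ⟨h3, h4⟩
    exact Real.sin_pos_of_pos_of_lt_pi h3 h4

/-- `p` is not in the direction of `- m` -/
def Slit (m p : ℝ × ℝ) : Prop := w m p ≠ 0 ∧ ang m p < Real.pi

lemma Slit.gt {p : ℝ × ℝ} (_ : Slit m p) : -Real.pi < ang m p := Complex.neg_pi_lt_arg _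

lemma slit_east {p : ℝ × ℝ} (h : 0 < S m p) : Slit m p ∧ 0 < ang m p := by
  have h1 : 0 < (w m p).im := h
  have hw : w m p ≠ 0 := by
    intro h2; rw [h2] at h1; simp at h1
  have h2 : 0 ≤ ang m p := Complex.arg_nonneg_iff.2 h1.le
  have h3 : ang m p ≠ Real.pi := by
    intro h4
    have := (Complex.arg_eq_pi_iff.1 h4).2
    rw [this] at h1; exact lt_irrefl _ h1
  have h4 : ang m p ≠ 0 := by
    intro h5
    have := (Complex.arg_eq_zero_iff.1 h5).2
    rw [this] at h1; exact lt_irrefl _ h1
  exact ⟨⟨hw, lt_of_le_of_ne (Complex.arg_le_pi _) h3⟩, lt_of_le_of_ne h2 (Ne.symm h4)⟩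

lemma slit_west {p : ℝ × ℝ} (h : 0 < S p m) : Slit m p ∧ ang m p < 0 := by
  have h1 : (w m p).im < 0 := by rw [w_im, S_anti]; linarith
  have hw : w m p ≠ 0 := by
    intro h2; rw [h2] at h1; simp at h1
  have h2 : ang m p < 0 := Complex.arg_neg_iff.2 h1
  exact ⟨⟨hw, by linarith [Real.pi_pos]⟩, h2⟩

lemma slit_in {a b u : ℝ × ℝ} (hm : inK a b m) (hu : inK a b u) : Slit m u := by
  have hm0 : 0 < m.1 ^ 2 + m.2 ^ 2 := m_pos (by rw [ne_eq]; exact hm.2.ne')
  refine ⟨w_ne hm0 (ne_of_gt hu.1), lt_of_le_of_ne (Complex.arg_le_pi _) ?_⟩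
  intro h
  obtain ⟨h1, h2⟩ := Complex.arg_eq_pi_iff.1 h
  rw [w_re] at h1
  rw [w_im] at h2
  have h3 : (m.1 ^ 2 + m.2 ^ 2) * S a u = (u.1 * m.1 + u.2 * m.2) * S a m
      + S m u * (a.1 * m.1 + a.2 * m.2) := by unfold S; ring
  rw [h2, zero_mul, add_zero] at h3
  have h4 : 0 < (m.1 ^ 2 + m.2 ^ 2) * S a u := mul_pos hm0 hu.1
  have h5 : (u.1 * m.1 + u.2 * m.2) * S a m < 0 := mul_neg_of_neg_of_pos h1 hm.1
  linarith

/-- membership in a sector through angles -/
lemma mem_iff {a b p : ℝ × ℝ} (hm : inK a b m) (hab : 0 < S a b) (hp : Slit m p) :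
    inK a b p ↔ ang m a < ang m p ∧ ang m p < ang m b := by
  have hm0 : 0 < m.1 ^ 2 + m.2 ^ 2 := m_pos (by rw [ne_eq]; exact hm.2.ne')
  obtain ⟨hsa, ha⟩ := slit_west hm.1
  obtain ⟨hsb, hb⟩ := slit_east hm.2
  have hab' : ang m b - ang m a < Real.pi := by
    have h1 := (S_pos_iff hm0 hsb.1 hsa.1).1 hab
    exact ((sin_pos_iff' (by linarith [Real.pi_pos]) (by linarith [hsa.gt, hsb.2])).1 h1).2
  unfold inK
  rw [S_pos_iff hm0 hp.1 hsa.1, S_pos_iff hm0 hsb.1 hp.1,
    sin_pos_iff' (by linarith [hp.gt]) (by linarith [hp.2, hsa.gt]),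
    sin_pos_iff' (by linarith [hp.2]) (by linarith [hp.gt, hsb.2])]
  constructor
  · rintro ⟨⟨h1, h2⟩, h3, h4⟩; constructor <;> linarith
  · rintro ⟨h1, h2⟩
    refine ⟨⟨by linarith, by linarith⟩, by linarith, by linarith⟩

lemma sector_width {a b : ℝ × ℝ} (hm : inK a b m) (hab : 0 < S a b) :
    ang m b - ang m a < Real.pi := by
  have hm0 : 0 < m.1 ^ 2 + m.2 ^ 2 := m_pos (by rw [ne_eq]; exact hm.2.ne')
  obtain ⟨hsa, ha⟩ := slit_west hm.1
  obtain ⟨hsb, hb⟩ := slit_east hm.2
  have h1 := (S_pos_iff hm0 hsb.1 hsa.1).1 hab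
  exact ((sin_pos_iff' (by linarith [Real.pi_pos]) (by linarith [hsa.gt, hsb.2])).1 h1).2

/-- order of two directions through angles, if they are less than `π` apart -/
lemma S_pos_of_lt (hm0 : 0 < m.1 ^ 2 + m.2 ^ 2) {p q : ℝ × ℝ} (hp : Slit m p) (hq : Slit m q)
    (h : ang m q < ang m p) (h' : ang m p - ang m q < Real.pi) : 0 < S q p := by
  rw [S_pos_iff hm0 hp.1 hq.1]
  exact Real.sin_pos_of_pos_of_lt_pi (by linarith) h'

open Classical in
/-- one-sided ramp -/
noncomputable def ramp (m q p : ℝ × ℝ) : ℝ := if ang m q < ang m p then S q p else 0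

open Classical in
lemma ramp_kink {a b u q : ℝ × ℝ} (hm : inK a b m) (hab : 0 < S a b) (hu : inK a b u)
    (hq : Slit m q) :
    H (ramp m q a) (ramp m q b) a b u - ramp m q u = if inK a b q then G a b u q else 0 := by
  have hm0 : 0 < m.1 ^ 2 + m.2 ^ 2 := m_pos (by rw [ne_eq]; exact hm.2.ne')
  obtain ⟨hsa, ha⟩ := slit_west hm.1
  obtain ⟨hsb, hb⟩ := slit_east hm.2
  have hsu : Slit m u := slit_in hm hu
  have hw := sector_width hm hab
  have hu' := (mem_iff hm hab hsu).1 hu
  have hab0 : S a b ≠ 0 := hab.ne'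
  by_cases hqK : inK a b q
  · rw [if_pos hqK]
    have hq' := (mem_iff hm hab hq).1 hqK
    unfold ramp
    rw [if_neg (by linarith), if_pos hq'.2]
    unfold H G
    rw [zero_mul, zero_add]
    by_cases hqu : ang m q < ang m u
    · rw [if_pos hqu]
      have h1 : 0 < S q u := S_pos_of_lt hm0 hsu hq hqu (by linarith)
      have h2 := pl2 a b u q
      have h3 : S a q * S u b ≤ S a u * S q b := by nlinarith
      rw [min_eq_left h3]
      field_simp
      linarith
    · rw [if_neg hqu]
      push Not at hqu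
      have h1 : 0 ≤ S u q := by
        rcases eq_or_lt_of_le hqu with h | h
        · rw [S_eq_zero_of_ang hm0 h.symm]
        · exact (S_pos_of_lt hm0 hq hsu h (by linarith)).le
      have h2 := pl2 a b u q
      rw [S_anti q u] at h2
      have h3 : S a u * S q b ≤ S a q * S u b := by nlinarith
      rw [min_eq_right h3]
      field_simp
      ring
  · rw [if_neg hqK]
    rw [mem_iff hm hab hq, not_and_or, not_lt, not_lt] at hqK
    rcases hqK with h | h
    · -- q is west of a
      have e1 : ramp m q a = S q a := by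
        unfold ramp
        split_ifs with h1
        · rfl
        · rw [S_eq_zero_of_ang hm0 (le_antisymm (not_lt.1 h1) h)]
      have e2 : ramp m q b = S q b := by
        unfold ramp; rw [if_pos (by linarith)]
      have e3 : ramp m q u = S q u := by
        unfold ramp; rw [if_pos (by linarith)]
      rw [e1, e2, e3]
      unfold H
      have : S q a * S u b + S q b * S a u = S q u * S a b := by unfold S; ring
      rw [this]; field_simp; ring
    · have e1 : ramp m q a = 0 := by
        unfold ramp; rw [if_neg (by linarith)]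
      have e2 : ramp m q b = 0 := by
        unfold ramp; rw [if_neg (by linarith)]
      have e3 : ramp m q u = 0 := by
        unfold ramp; rw [if_neg (by linarith)]
      rw [e1, e2, e3]
      unfold H; simp

open Classical in
/-- the hat function of the sector `(l, r)` with peak `d` -/
noncomputable def hatf (l r d p : ℝ × ℝ) : ℝ := if inK l r p then G l r p d else 0

open Classical in
lemma hat_decomp {l r d p : ℝ × ℝ} (hm : inK l r m) (hlr : 0 < S l r) (hd : inK l r d)
    (hp : Slit m p) :
    hatf l r d p = S d r / S l r * ramp m l p - ramp m d p + S l d / S l r * ramp m r p := by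
  have hm0 : 0 < m.1 ^ 2 + m.2 ^ 2 := m_pos (by rw [ne_eq]; exact hm.2.ne')
  obtain ⟨hsl, hl⟩ := slit_west hm.1
  obtain ⟨hsr, hr⟩ := slit_east hm.2
  have hsd : Slit m d := slit_in hm hd
  have hw := sector_width hm hlr
  have hd' := (mem_iff hm hlr hsd).1 hd
  have hlr0 : S l r ≠ 0 := hlr.ne'
  unfold hatf ramp
  rw [mem_iff hm hlr hp]
  by_cases h1 : ang m l < ang m p
  · by_cases h2 : ang m p < ang m r
    · rw [if_pos ⟨h1, h2⟩, if_pos h1, if_neg (show ¬ ang m r < ang m p by linarith)]
      unfold G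
      by_cases h3 : ang m d < ang m p
      · rw [if_pos h3]
        have h4 : 0 < S d p := S_pos_of_lt hm0 hp hsd h3 (by linarith)
        have h5 := pl2 l r p d
        rw [min_eq_left (by nlinarith)]
        field_simp
        linarith
      · rw [if_neg h3]
        push Not at h3
        have h4 : 0 ≤ S p d := by
          rcases eq_or_lt_of_le h3 with h | h
          · rw [S_eq_zero_of_ang hm0 h.symm]
          · exact (S_pos_of_lt hm0 hsd hp h (by linarith)).le
        have h5 := pl2 l r p d
        rw [S_anti d p] at h5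
        rw [min_eq_right (by nlinarith)]
        field_simp
        ring
    · push Not at h2
      rw [if_neg (fun h => by linarith [h.2]), if_pos h1, if_pos (by linarith)]
      have h3 : S d r * S l p - S d p * S l r + S l d * S r p = 0 := by unfold S; ring
      have h4 : (if ang m r < ang m p then S r p else 0) = S r p := by
        split_ifs with h
        · rfl
        · rw [S_eq_zero_of_ang hm0 (le_antisymm (not_lt.1 h) h2)]
      rw [h4]
      field_simp
      linarith
  · rw [if_neg (fun h => h1 h.1), if_neg h1, if_neg (by linarith), if_neg (by linarith)]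
    ring

open Classical in
/-- the hat lemma -/
lemma hat {a b l r u d : ℝ × ℝ} (hab : 0 < S a b) (hlr : 0 < S l r) (hm1 : inK a b m)
    (hm2 : inK l r m) (hu : inK a b u) (hd : inK l r d) :
    H (hatf l r d a) (hatf l r d b) a b u - hatf l r d u
      = S d r / S l r * (if inK a b l then G a b u l else 0)
        - (if inK a b d then G a b u d else 0)
        + S l d / S l r * (if inK a b r then G a b u r else 0) := by
  obtain ⟨hsa, -⟩ := slit_west hm1.1
  obtain ⟨hsb, -⟩ := slit_east hm1.2
  obtain ⟨hsl, -⟩ := slit_west hm2.1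
  obtain ⟨hsr, -⟩ := slit_east hm2.2
  have hsu : Slit m u := slit_in hm1 hu
  have hsd : Slit m d := slit_in hm2 hd
  rw [hat_decomp hm2 hlr hd hsa, hat_decomp hm2 hlr hd hsb, hat_decomp hm2 hlr hd hsu,
    ← ramp_kink hm1 hab hu hsl, ← ramp_kink hm1 hab hu hsd, ← ramp_kink hm1 hab hu hsr]
  unfold H
  ring

end ang

open Classical in
/-- the kinks of the positive part of a linear function -/
lemma posPart_kink {a b u m : ℝ × ℝ} (hab : 0 < S a b) (hu : inK a b u) :
    H (max 0 (S m a)) (max 0 (S m b)) a b u - max 0 (S m u)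
      = (if inK a b m then G a b u m else 0) + (if inK a b (-m) then G a b u (-m) else 0) := by
  have hneg1 : S a (-m) = S m a := by unfold S; simp; ring
  have hneg2 : S (-m) b = - S m b := by unfold S; simp; ring
  have hneg3 : S a m = - S m a := S_anti _ _
  have hab0 : S a b ≠ 0 := hab.ne'
  have hpl : S m a * S u b + S m b * S a u = S m u * S a b := by unfold S; ring
  unfold inK
  rw [hneg1, hneg2, hneg3]
  rcases lt_trichotomy (S m a) 0 with ha | ha | ha
  · rw [if_neg (show ¬ (0 < S m a ∧ 0 < - S m b) from fun h => by linarith [h.1])]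
    rcases lt_or_ge 0 (S m b) with hb | hb
    · rw [if_pos ⟨by linarith, hb⟩, max_eq_left ha.le, max_eq_right hb.le]
      unfold H G
      rw [hneg3]
      rcases lt_or_ge 0 (S m u) with hmu | hmu
      · rw [max_eq_right hmu.le, min_eq_left (by nlinarith)]
        field_simp
        linarith
      · rw [max_eq_left hmu, min_eq_right (by nlinarith)]
        field_simp
        ring
    · rw [if_neg (fun h => by linarith [h.2]), max_eq_left ha.le, max_eq_left hb]
      have hmu : S m u ≤ 0 := by
        by_contra hcon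
        push Not at hcon
        have h1 : 0 < S m u * S a b := mul_pos hcon hab
        have h2 : S m a * S u b < 0 := mul_neg_of_neg_of_pos ha hu.2
        have h3 : S m b * S a u ≤ 0 := mul_nonpos_of_nonpos_of_nonneg hb hu.1.le
        linarith
      rw [max_eq_left hmu]
      unfold H; simp
  · rw [if_neg (show ¬ (0 < - S m a ∧ 0 < S m b) from fun h => by linarith [h.1]),
      if_neg (show ¬ (0 < S m a ∧ 0 < - S m b) from fun h => by linarith [h.1]), ha]
    rw [ha] at hpl
    rcases le_total 0 (S m b) with hb | hb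
    · have hmu : 0 ≤ S m u := by
        by_contra hcon
        push Not at hcon
        have h1 : S m u * S a b < 0 := mul_neg_of_neg_of_pos hcon hab
        have h3 : 0 ≤ S m b * S a u := mul_nonneg hb hu.1.le
        linarith
      rw [max_eq_right hb, max_eq_right hmu]
      unfold H
      simp only [max_self, zero_mul, zero_add, add_zero]
      field_simp
      linarith
    · have hmu : S m u ≤ 0 := by
        by_contra hcon
        push Not at hcon
        have h1 : 0 < S m u * S a b := mul_pos hcon hab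
        have h3 : S m b * S a u ≤ 0 := mul_nonpos_of_nonpos_of_nonneg hb hu.1.le
        linarith
      rw [max_eq_left hb, max_eq_left hmu]
      unfold H; simp
  · rw [if_neg (show ¬ (0 < - S m a ∧ 0 < S m b) from fun h => by linarith [h.1])]
    rcases le_or_gt 0 (S m b) with hb | hb
    · have hmu : 0 ≤ S m u := by
        by_contra hcon
        push Not at hcon
        have h1 : S m u * S a b < 0 := mul_neg_of_neg_of_pos hcon hab
        have h2 : 0 < S m a * S u b := mul_pos ha hu.2
        have h3 : 0 ≤ S m b * S a u := mul_nonneg hb hu.1.le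
        linarith
      rw [if_neg (fun h => by linarith [h.2]), max_eq_right ha.le, max_eq_right hb,
        max_eq_right hmu]
      unfold H
      rw [hpl]; field_simp; ring
    · rw [if_pos ⟨ha, by linarith⟩, max_eq_right ha.le, max_eq_left hb.le]
      unfold H G
      rw [hneg1, hneg2]
      rcases lt_or_ge 0 (S m u) with hmu | hmu
      · rw [max_eq_right hmu.le, min_eq_right (by nlinarith)]
        field_simp
        linarith
      · rw [max_eq_left hmu, min_eq_left (by nlinarith)]
        field_simp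
        ring

end Pool.Agent.Lib.MP_731b42_co
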