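import Pool.Agent.Lib.MP_731b42_co.Defs
import Pool.Agent.Lib.MP_731b42_co.Cone

/-!
# From the sphere to heights
-/

namespace Pool.Agent.Lib.MP_731b42_co

open Filter Topology

/-- vector with given coordinates -/
noncomputable def vec (d : ℝ × ℝ) (z : ℝ) : E3 := !₂[d.1, d.2, z]

@[simp] lemma vec_0 (d : ℝ × ℝ) (z : ℝ) : vec d z 0 = d.1 := rfl
@[simp] lemma vec_1 (d : ℝ × ℝ) (z : ℝ) : vec d z 1 = d.2 := rfl
@[simp] lemma vec_2 (d : ℝ × ℝ) (z : ℝ) : vec d z 2 = z := rfl

lemma e3_ext {x y : E3} (h0 : x 0 = y 0) (h1 : x 1 = y 1) (h2 : x 2 = y 2) : x = y := by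
  ext i
  fin_cases i
  · exact h0
  · exact h1
  · exact h2

lemma inner_e3 (x y : E3) : inner ℝ x y = x 0 * y 0 + x 1 * y 1 + x 2 * y 2 := by
  rw [PiLp.inner_apply, Fin.sum_univ_three]
  simp
  ring

lemma northPole_inner (m : E3) : inner ℝ m northPole = m 2 := by
  rw [inner_e3]
  simp [northPole]

lemma northPole_norm : ‖northPole‖ = 1 := by
  simp [northPole]

section rep

variable {n : ℕ} (G : SimpleGraph (Fin n)) (dir : Fin n → ℝ × ℝ)

/-- oriented edges -/
def OE : Type := {e : Fin n × Fin n // G.Adj e.1 e.2 ∧ 0 < S (dir e.1) (dir e.2)}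

noncomputable instance : Fintype (OE G dir) := by
  classical
  unfold OE
  infer_instance

/-- the planar data of an embedding -/
def dat : Dat (Fin n) (OE G dir) where
  dir := dir
  l e := e.1.1
  r e := e.1.2
  pos e := e.2.2
  inj _ _ h1 h2 := Subtype.ext (Prod.ext h1 h2)

/-- `Q` has directions `dir` and heights `z` -/
structure Rep (Q : Fin n → E3) (c z : Fin n → ℝ) : Prop where
  pos : ∀ v, 0 < c v
  x0 : ∀ v, Q v 0 = c v * (dir v).1
  x1 : ∀ v, Q v 1 = c v * (dir v).2
  x2 : ∀ v, Q v 2 = c v * z v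

variable {G dir} {Q : Fin n → E3} {c z : Fin n → ℝ}

lemma edge_ne {e f : OE G dir} (h : e ≠ f) : s(e.1.1, e.1.2) ≠ s(f.1.1, f.1.2) := by
  intro h'
  rw [Sym2.eq_iff] at h'
  rcases h' with ⟨h1, h2⟩ | ⟨h1, h2⟩
  · exact h (Subtype.ext (Prod.ext h1 h2))
  · have h3 := e.2.2
    have h4 := f.2.2
    rw [h1, h2, S_anti] at h3
    linarith

/-- decomposition of a direction in a sector -/
lemma sector_decomp {a b p : ℝ × ℝ} (hab : 0 < S a b) (zl zr : ℝ) :
    p.1 = S p b / S a b * a.1 + S a p / S a b * b.1 ∧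
    p.2 = S p b / S a b * a.2 + S a p / S a b * b.2 ∧
    H zl zr a b p = S p b / S a b * zl + S a p / S a b * zr := by
  have h := hab.ne'
  refine ⟨?_, ?_, ?_⟩
  · field_simp
    unfold S; ring
  · field_simp
    unfold S; ring
  · unfold H
    field_simp

lemma good_of_emb (hQ : IsShortestPathEmbedding G Q) (hr : Rep dir Q c z) :
    Good (dat G dir) z := by
  refine ⟨?_, ?_⟩
  · intro e u hK heq
    have hK1 : 0 < S (dir e.1.1) (dir u) := hK.1
    have hK2 : 0 < S (dir u) (dir e.1.2) := hK.2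
    have heq' : H (z e.1.1) (z e.1.2) (dir e.1.1) (dir e.1.2) (dir u) = z u := heq
    obtain ⟨h1, h2, h3⟩ := sector_decomp (p := dir u) e.2.2 (z e.1.1) (z e.1.2)
    rw [heq'] at h3
    have hul : u ≠ e.1.1 := by
      rintro h; rw [h, S_self] at hK1; exact lt_irrefl _ hK1
    have hur : u ≠ e.1.2 := by
      rintro h; rw [h, S_self] at hK2; exact lt_irrefl _ hK2
    apply hQ.vertex_edge _ _ _ e.2.1 hul hur
    have hc := hr.pos
    refine ⟨hQ.on_sphere u,
      c u * (S (dir u) (dir e.1.2) / S (dir e.1.1) (dir e.1.2)) / c e.1.1,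
      c u * (S (dir e.1.1) (dir u) / S (dir e.1.1) (dir e.1.2)) / c e.1.2, ?_, ?_, ?_⟩
    · have := hc u; have := hc e.1.1; have := e.2.2; positivity
    · have := hc u; have := hc e.1.2; have := e.2.2; positivity
    · have hcl := (hc e.1.1).ne'
      have hcr := (hc e.1.2).ne'
      apply e3_ext
      · simp only [PiLp.add_apply, PiLp.smul_apply, smul_eq_mul]
        rw [hr.x0, hr.x0, hr.x0, h1]
        field_simp
      · simp only [PiLp.add_apply, PiLp.smul_apply, smul_eq_mul]
        rw [hr.x1, hr.x1, hr.x1, h2]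
        field_simp
      · simp only [PiLp.add_apply, PiLp.smul_apply, smul_eq_mul]
        rw [hr.x2, hr.x2, hr.x2, h3]
        field_simp
  · intro e f hef p he hf heq
    have he1 : 0 < S (dir e.1.1) p := he.1
    have he2 : 0 < S p (dir e.1.2) := he.2
    have hf1 : 0 < S (dir f.1.1) p := hf.1
    have hf2 : 0 < S p (dir f.1.2) := hf.2
    obtain ⟨X, X0, X1, X2⟩ : ∃ X : E3, X 0 = p.1 ∧ X 1 = p.2 ∧ X 2 = (dat G dir).h z e p :=
      ⟨vec p ((dat G dir).h z e p), rfl, rfl, rfl⟩
    have hXne : X ≠ 0 := by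
      intro h
      have h0 : p.1 = 0 := by
        rw [← X0, h]; rfl
      have h1 : p.2 = 0 := by
        rw [← X1, h]; rfl
      unfold S at he1; rw [h0, h1] at he1; simp at he1
    have hXn : 0 < ‖X‖ := norm_pos_iff.2 hXne
    have hc := hr.pos
    have hmem : ∀ g : OE G dir, (dat G dir).K g p → (dat G dir).h z e p = (dat G dir).h z g p →
        ‖X‖⁻¹ • X ∈ arc (Q g.1.1) (Q g.1.2) := by
      intro g hg hgeq
      have hg1 : 0 < S (dir g.1.1) p := hg.1
      have hg2 : 0 < S p (dir g.1.2) := hg.2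
      obtain ⟨h1, h2, h3⟩ := sector_decomp (p := p) g.2.2 (z g.1.1) (z g.1.2)
      have h3' : (dat G dir).h z e p
          = S p (dir g.1.2) / S (dir g.1.1) (dir g.1.2) * z g.1.1
            + S (dir g.1.1) p / S (dir g.1.1) (dir g.1.2) * z g.1.2 := by
        rw [hgeq]; exact h3
      refine ⟨?_, ‖X‖⁻¹ * (S p (dir g.1.2) / S (dir g.1.1) (dir g.1.2)) / c g.1.1,
        ‖X‖⁻¹ * (S (dir g.1.1) p / S (dir g.1.1) (dir g.1.2)) / c g.1.2, ?_, ?_, ?_⟩
      · rw [norm_smul, norm_inv, norm_norm]; field_simp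
      · have := hc g.1.1; have := g.2.2; positivity
      · have := hc g.1.2; have := g.2.2; positivity
      · have hcl := (hc g.1.1).ne'
        have hcr := (hc g.1.2).ne'
        apply e3_ext
        · simp only [PiLp.add_apply, PiLp.smul_apply, smul_eq_mul, X0]
          rw [hr.x0, hr.x0]
          conv_lhs => rw [h1]
          field_simp
        · simp only [PiLp.add_apply, PiLp.smul_apply, smul_eq_mul, X1]
          rw [hr.x1, hr.x1]
          conv_lhs => rw [h2]
          field_simp
        · simp only [PiLp.add_apply, PiLp.smul_apply, smul_eq_mul, X2]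
          rw [hr.x2, hr.x2]
          conv_lhs => rw [h3']
          field_simp
    obtain ⟨w, hw1, -, hw3⟩ := hQ.edge_edge _ _ _ _ e.2.1 f.2.1 (edge_ne hef) _
      (hmem e he rfl) (hmem f hf heq)
    have h0 : ‖X‖⁻¹ * p.1 = c w * (dir w).1 := by
      have := congrArg (fun x : E3 => x 0) hw3
      simp only [PiLp.smul_apply, smul_eq_mul, X0] at this
      rw [hr.x0] at this; exact this
    have h1 : ‖X‖⁻¹ * p.2 = c w * (dir w).2 := by
      have := congrArg (fun x : E3 => x 1) hw3
      simp only [PiLp.smul_apply, smul_eq_mul, X1] at this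
      rw [hr.x1] at this; exact this
    have h2 : S (dir w) p = 0 := by
      have h3 : ‖X‖⁻¹ * S (dir w) p = c w * S (dir w) (dir w) := by
        unfold S
        have e1 : ‖X‖⁻¹ * ((dir w).1 * p.2 - (dir w).2 * p.1)
          = (dir w).1 * (‖X‖⁻¹ * p.2) - (dir w).2 * (‖X‖⁻¹ * p.1) := by ring
        rw [e1, h0, h1]; ring
      rw [S_self, mul_zero] at h3
      exact (mul_eq_zero.1 h3).resolve_left (inv_ne_zero hXn.ne')
    rcases hw1 with h | h
    · rw [← h, h2] at he1; exact lt_irrefl _ he1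
    · rw [← h, S_anti, h2] at he2; simp at he2

lemma emb_of_good (hS : ∀ u v, u ≠ v → S (dir u) (dir v) ≠ 0) (hz : Good (dat G dir) z)
    (hr : Rep dir Q c z) (hu : ∀ v, ‖Q v‖ = 1) : IsShortestPathEmbedding G Q := by
  have hc := hr.pos
  -- parallel positions have the same vertex
  have hpar : ∀ (u v : Fin n) (b : ℝ), Q u = b • Q v → u = v := by
    intro u v b h
    by_contra hne
    apply hS u v hne
    have h0 : c u * (dir u).1 = b * (c v * (dir v).1) := by
      have := congrArg (fun x : E3 => x 0) h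
      simp only [PiLp.smul_apply, smul_eq_mul] at this
      rw [hr.x0, hr.x0] at this; exact this
    have h1 : c u * (dir u).2 = b * (c v * (dir v).2) := by
      have := congrArg (fun x : E3 => x 1) h
      simp only [PiLp.smul_apply, smul_eq_mul] at this
      rw [hr.x1, hr.x1] at this; exact this
    have h2 : c u * S (dir u) (dir v) = 0 := by
      unfold S
      linear_combination (dir v).2 * h0 - (dir v).1 * h1
    exact (mul_eq_zero.1 h2).resolve_left (hc u).ne'
  -- a point of the open arc gives a direction in the sector and the height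
  have hopen : ∀ (u v : Fin n), G.Adj u v → ∀ (a b : ℝ), 0 < a → 0 < b → ∀ (x : E3),
      x = a • Q u + b • Q v → ∃ e : OE G dir, s(e.1.1, e.1.2) = s(u, v) ∧
        (dat G dir).K e (x 0, x 1) ∧ (dat G dir).h z e (x 0, x 1) = x 2 := by
    intro u v huv a b ha hb x hx
    have hxc : ∀ (u v : Fin n) (a b : ℝ), x = a • Q u + b • Q v →
        x 0 = a * (c u * (dir u).1) + b * (c v * (dir v).1) ∧
        x 1 = a * (c u * (dir u).2) + b * (c v * (dir v).2) ∧
        x 2 = a * (c u * z u) + b * (c v * z v) := by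
      intro u v a b hx
      rw [hx]
      simp only [PiLp.add_apply, PiLp.smul_apply, smul_eq_mul]
      rw [hr.x0, hr.x0, hr.x1, hr.x1, hr.x2, hr.x2]
      exact ⟨rfl, rfl, rfl⟩
    -- oriented version
    have hor : ∀ (u v : Fin n) (huv : G.Adj u v) (hs : 0 < S (dir u) (dir v)) (a b : ℝ), 0 < a →
        0 < b → x = a • Q u + b • Q v →
        (dat G dir).K ⟨(u, v), huv, hs⟩ (x 0, x 1) ∧
          (dat G dir).h z ⟨(u, v), huv, hs⟩ (x 0, x 1) = x 2 := by
      intro u v huv hs a b ha hb hx
      obtain ⟨h0, h1, h2⟩ := hxc u v a b hx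
      have hcu := hc u
      have hcv := hc v
      have k1 : S (dir u) (x 0, x 1) = b * c v * S (dir u) (dir v) := by
        unfold S; simp only; rw [h0, h1]; ring
      have k2 : S (x 0, x 1) (dir v) = a * c u * S (dir u) (dir v) := by
        unfold S; simp only; rw [h0, h1]; ring
      refine ⟨⟨?_, ?_⟩, ?_⟩
      · change 0 < S (dir u) (x 0, x 1)
        rw [k1]; positivity
      · change 0 < S (x 0, x 1) (dir v)
        rw [k2]; positivity
      · change H (z u) (z v) (dir u) (dir v) (x 0, x 1) = x 2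
        unfold H
        rw [k1, k2, h2]
        have := hs.ne'
        field_simp
    rcases lt_or_gt_of_ne (hS u v huv.ne) with hs | hs
    · have hs' : 0 < S (dir v) (dir u) := by rw [S_anti]; linarith
      obtain ⟨h1, h2⟩ := hor v u huv.symm hs' b a hb ha (by rw [hx, add_comm])
      exact ⟨⟨(v, u), huv.symm, hs'⟩, Sym2.eq_swap, h1, h2⟩
    · obtain ⟨h1, h2⟩ := hor u v huv hs a b ha hb hx
      exact ⟨⟨(u, v), huv, hs⟩, rfl, h1, h2⟩
  have hve : ∀ u v w, G.Adj u v → w ≠ u → w ≠ v → Q w ∉ arc (Q u) (Q v) := by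
    rintro u v w huv hwu hwv ⟨-, a, b, ha, hb, hx⟩
    rcases eq_or_lt_of_le ha with h | h
    · rw [← h, zero_smul, zero_add] at hx
      exact hwv (hpar w v b hx)
    rcases eq_or_lt_of_le hb with h' | h'
    · rw [← h', zero_smul, add_zero] at hx
      exact hwu (hpar w u a hx)
    obtain ⟨e, -, hK, hh⟩ := hopen u v huv a b h h' _ hx
    have e1 : ((Q w 0, Q w 1) : ℝ × ℝ) = (c w * (dir w).1, c w * (dir w).2) := by
      rw [hr.x0, hr.x1]
    have hcw := hc w
    have hK' : (dat G dir).K e (dir w) := by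
      rw [e1] at hK
      obtain ⟨k1, k2⟩ := hK
      refine ⟨?_, ?_⟩
      · have : S (dir e.1.1) (c w * (dir w).1, c w * (dir w).2)
            = c w * S (dir e.1.1) (dir w) := by unfold S; simp only; ring
        have k1' : 0 < S (dir e.1.1) (c w * (dir w).1, c w * (dir w).2) := k1
        rw [this] at k1'
        exact (mul_pos_iff_of_pos_left hcw).1 k1'
      · have : S (c w * (dir w).1, c w * (dir w).2) (dir e.1.2)
            = c w * S (dir w) (dir e.1.2) := by unfold S; simp only; ring
        have k2' : 0 < S (c w * (dir w).1, c w * (dir w).2) (dir e.1.2) := k2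
        rw [this] at k2'
        exact (mul_pos_iff_of_pos_left hcw).1 k2'
    apply hz.vert e w hK'
    rw [e1, hr.x2] at hh
    have e2 : (dat G dir).h z e (c w * (dir w).1, c w * (dir w).2)
        = c w * (dat G dir).h z e (dir w) := by
      have := h_comb (D := dat G dir) z e (c w) 0 (dir w) (dir w)
      simpa using this
    rw [e2] at hh
    exact mul_left_cancel₀ hcw.ne' hh
  refine ⟨hu, ?_, ?_, hve, ?_⟩
  · intro u v h
    exact hpar u v 1 (by rw [one_smul]; exact h)
  · intro u v huv h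
    exact huv.ne (hpar u v (-1) (by rw [neg_one_smul]; exact h))
  · intro u v u' v' huv huv' hne x hx hx'
    -- end point case
    have hend : ∀ (u v u' v' : Fin n), G.Adj u' v' → ∀ (b : ℝ), 0 ≤ b → ‖x‖ = 1 →
        x = b • Q v → x ∈ arc (Q u') (Q v') → (v = u' ∨ v = v') ∧ x = Q v := by
      intro u v u' v' huv' b hb hn hx hx'
      have hb1 : b = 1 := by
        have : ‖x‖ = b := by rw [hx, norm_smul, hu v, mul_one, Real.norm_of_nonneg hb]
        rw [← this, hn]
      rw [hb1, one_smul] at hx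
      refine ⟨?_, hx⟩
      by_contra hcon
      push Not at hcon
      rw [hx] at hx'
      exact hve u' v' v huv' hcon.1 hcon.2 hx'
    obtain ⟨hn, a, b, ha, hb, hxe⟩ := hx
    have hxmem : x ∈ arc (Q u) (Q v) := ⟨hn, a, b, ha, hb, hxe⟩
    have hxmem' := hx'
    obtain ⟨-, a', b', ha', hb', hxe'⟩ := hx'
    rcases eq_or_lt_of_le ha with h | hap
    · rw [← h, zero_smul, zero_add] at hxe
      obtain ⟨h1, h2⟩ := hend u v u' v' huv' b hb hn hxe hxmem'
      exact ⟨v, Or.inr rfl, h1, h2⟩
    rcases eq_or_lt_of_le hb with h | hbp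
    · rw [← h, zero_smul, add_zero] at hxe
      obtain ⟨h1, h2⟩ := hend v u u' v' huv' a ha hn hxe hxmem'
      exact ⟨u, Or.inl rfl, h1, h2⟩
    rcases eq_or_lt_of_le ha' with h | hap'
    · rw [← h, zero_smul, zero_add] at hxe'
      obtain ⟨h1, h2⟩ := hend u' v' u v huv b' hb' hn hxe' hxmem
      exact ⟨v', h1, Or.inr rfl, h2⟩
    rcases eq_or_lt_of_le hb' with h | hbp'
    · rw [← h, zero_smul, add_zero] at hxe'
      obtain ⟨h1, h2⟩ := hend v' u' u v huv a' ha' hn hxe' hxmem
      exact ⟨u', h1, Or.inl rfl, h2⟩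
    obtain ⟨e, he, hKe, hhe⟩ := hopen u v huv a b hap hbp x hxe
    obtain ⟨f, hf, hKf, hhf⟩ := hopen u' v' huv' a' b' hap' hbp' x hxe'
    have hef : e ≠ f := by
      rintro rfl
      exact hne (he.symm.trans hf)
    exact absurd (hhe.trans hhf.symm) (hz.edge e f hef _ hKe hKf)

end rep

section main

variable {n : ℕ} {G : SimpleGraph (Fin n)} {P : Fin n → E3}

/-- horizontal directions -/
def dirs (P : Fin n → E3) (v : Fin n) : ℝ × ℝ := (P v 0, P v 1)

/-- initial heights -/
def hts (P : Fin n → E3) (v : Fin n) : ℝ := P v 2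

lemma generic_S (hP : IsShortestPathEmbedding G P) (hgen : IsGeneric P) (u v : Fin n)
    (huv : u ≠ v) : S (dirs P u) (dirs P v) ≠ 0 := by
  intro h
  -- a horizontal normal vector
  have key : ∀ (d : ℝ × ℝ), d ≠ 0 → S (dirs P u) d = 0 → S (dirs P v) d = 0 → False := by
    intro d hd h1 h2
    have hm : vec (d.2, -d.1) 0 ≠ 0 := by
      intro h0
      apply hd
      have e0 : d.2 = 0 := by
        have := congrArg (fun x : E3 => x 0) h0; simpa using this
      have e1 : d.1 = 0 := by
        have := congrArg (fun x : E3 => x 1) h0; simpa using this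
      exact Prod.ext e1 e0
    apply hgen.no_two _ hm ⟨northPole_norm, by rw [northPole_inner]; simp⟩ u v huv
    refine ⟨⟨hP.on_sphere u, ?_⟩, ⟨hP.on_sphere v, ?_⟩⟩
    · rw [inner_e3]; simp only [vec_0, vec_1, vec_2]
      unfold S dirs at h1; simp only at h1; linarith
    · rw [inner_e3]; simp only [vec_0, vec_1, vec_2]
      unfold S dirs at h2; simp only at h2; linarith
  by_cases hu : dirs P u = 0
  · by_cases hv : dirs P v = 0
    · apply key (1, 0) (by intro h; simpa using congrArg Prod.fst h)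
      · rw [hu]; unfold S; simp
      · rw [hv]; unfold S; simp
    · exact key (dirs P v) hv h (S_self _)
  · exact key (dirs P u) hu (S_self _) (by rw [S_anti, h, neg_zero])

lemma generic_dir (hn : 4 ≤ n) (hP : IsShortestPathEmbedding G P) (hgen : IsGeneric P)
    (v : Fin n) : dirs P v ≠ 0 := by
  have : Nontrivial (Fin n) := Fin.nontrivial_iff_two_le.2 (by omega)
  obtain ⟨u, hu⟩ := exists_ne v
  intro h
  apply generic_S hP hgen u v hu
  rw [h]; unfold S; simp

lemma rep_self : Rep (dirs P) P (fun _ => 1) (hts P) :=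
  ⟨fun _ => one_pos, fun v => by simp [dirs], fun v => by simp [dirs], fun v => by simp [hts]⟩

/-- reachability with sign `σ` -/
def Reach (σ : ℝ) (G : SimpleGraph (Fin n)) (P : Fin n → E3) : Prop :=
  ∃ Q Γ, IsLongitudinalMorph G P Q Γ ∧ ∀ v, 0 < σ * Q v 2

/-- a morph ends in the cone -/
lemma cone_of_morph {σ : ℝ} (hn : 4 ≤ n) (hP : IsShortestPathEmbedding G P) (hgen : IsGeneric P)
    (h : Reach σ G P) :
    ∃ z, InCone (dat G (dirs P)) (hts P) z ∧ ∀ v, 0 < σ * z v := by
  obtain ⟨Q, Γ, hΓ, hQ⟩ := h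
  have hdir := generic_dir hn hP hgen
  set N : Fin n → ℝ := fun v => (dirs P v).1 ^ 2 + (dirs P v).2 ^ 2 with hN
  have hNpos : ∀ v, 0 < N v := by
    intro v
    by_contra hcon
    apply hdir v
    have h2 : (dirs P v).1 = 0 := by
      simp only [hN] at hcon; nlinarith [sq_nonneg (dirs P v).1, sq_nonneg (dirs P v).2]
    have h3 : (dirs P v).2 = 0 := by
      simp only [hN] at hcon; nlinarith [sq_nonneg (dirs P v).1, sq_nonneg (dirs P v).2]
    exact Prod.ext h2 h3
  let c : ℝ → Fin n → ℝ := fun t v => (Γ t v 0 * (dirs P v).1 + Γ t v 1 * (dirs P v).2) / N v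
  let z : ℝ → Fin n → ℝ := fun t v => Γ t v 2 / c t v
  have hc : ∀ t ∈ Set.Icc (0:ℝ) 1, ∀ v, 0 < c t v ∧ Γ t v 0 = c t v * (dirs P v).1 ∧
      Γ t v 1 = c t v * (dirs P v).2 := by
    intro t ht v
    obtain ⟨-, k, hk, h0, h1⟩ := hΓ.longitude t ht v
    have e : c t v = k := by
      simp only [c]
      rw [h0, h1]
      have := (hNpos v).ne'
      rw [div_eq_iff this]
      simp only [hN, dirs]
      ring
    rw [e]
    exact ⟨hk, h0, h1⟩
  have hrep : ∀ t ∈ Set.Icc (0:ℝ) 1, Rep (dirs P) (Γ t) (c t) (z t) := by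
    intro t ht
    refine ⟨fun v => (hc t ht v).1, fun v => (hc t ht v).2.1, fun v => (hc t ht v).2.2, ?_⟩
    intro v
    have := (hc t ht v).1.ne'
    simp only [z]
    field_simp
  have hgood : ∀ t ∈ Set.Icc (0:ℝ) 1, Good (dat G (dirs P)) (z t) := fun t ht =>
    good_of_emb (hΓ.embedding t ht) (hrep t ht)
  have hcont : ∀ v i, ContinuousOn (fun t => Γ t v i) (Set.Icc 0 1) := by
    intro v i
    exact (PiLp.continuous_apply 2 _ i).comp_continuousOn (hΓ.continuous v)
  have hccont : ∀ v, ContinuousOn (fun t => c t v) (Set.Icc 0 1) := by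
    intro v
    simp only [c]
    exact (((hcont v 0).mul continuousOn_const).add ((hcont v 1).mul continuousOn_const)).div_const _
  have hzcont : ∀ v, ContinuousOn (fun t => z t v) (Set.Icc 0 1) := by
    intro v
    exact (hcont v 2).div (hccont v) (fun t ht => (hc t ht v).1.ne')
  have h01 : (0:ℝ) ∈ Set.Icc (0:ℝ) 1 := ⟨le_refl _, zero_le_one⟩
  have h11 : (1:ℝ) ∈ Set.Icc (0:ℝ) 1 := ⟨zero_le_one, le_refl _⟩
  have hz0 : z 0 = hts P := by
    funext v
    have hc0 : c 0 v = 1 := by
      simp only [c]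
      rw [hΓ.start]
      have := (hNpos v).ne'
      rw [div_eq_iff this]
      simp only [hN, dirs]
      ring
    simp only [z]
    rw [hc0, hΓ.start, div_one]; rfl
  refine ⟨z 1, ?_, ?_⟩
  · intro e u hK
    set φ : ℝ → ℝ := fun t => (dat G (dirs P)).h (z t) e (dirs P u) - z t u with hφ
    have hφc : ContinuousOn φ (Set.Icc 0 1) := by
      simp only [hφ]
      apply ContinuousOn.sub _ (hzcont u)
      unfold Dat.h H
      exact (((hzcont _).mul continuousOn_const).add
        ((hzcont _).mul continuousOn_const)).div_const _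
    have hφne : ∀ t ∈ Set.Icc (0:ℝ) 1, φ t ≠ 0 := by
      intro t ht
      exact sub_ne_zero.2 ((hgood t ht).vert e u hK)
    have e0 : (dat G (dirs P)).h (hts P) e ((dat G (dirs P)).dir u) - hts P u = φ 0 := by
      simp only [hφ]; rw [hz0]; rfl
    rw [e0]
    change 0 < φ 0 * φ 1
    by_contra hcon
    push Not at hcon
    have hn0 := hφne 0 h01
    have hn1 := hφne 1 h11
    rcases lt_or_gt_of_ne hn0 with h | h
    · have h1 : 0 < φ 1 := by
        rcases lt_or_gt_of_ne hn1 with h' | h'
        · exact absurd (mul_pos_of_neg_of_neg h h') (not_lt.2 hcon)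
        · exact h'
      obtain ⟨t, ht, hφt⟩ := intermediate_value_Icc zero_le_one hφc ⟨h.le, h1.le⟩
      exact hφne t ht hφt
    · have h1 : φ 1 < 0 := by
        rcases lt_or_gt_of_ne hn1 with h' | h'
        · exact h'
        · exact absurd (mul_pos h h') (not_lt.2 hcon)
      obtain ⟨t, ht, hφt⟩ := intermediate_value_Icc' zero_le_one hφc ⟨h1.le, h.le⟩
      exact hφne t ht hφt
  · intro v
    have h1 := hQ v
    rw [← hΓ.finish] at h1
    have h2 := (hrep 1 h11).x2 v
    have h3 := (hrep 1 h11).pos v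
    rw [h2] at h1
    have h4 : σ * (c 1 v * z 1 v) = c 1 v * (σ * z 1 v) := by ring
    rw [h4] at h1
    exact (mul_pos_iff_of_pos_left h3).1 h1

/-- the embedding with given heights -/
noncomputable def place (P : Fin n → E3) (z : Fin n → ℝ) (v : Fin n) : E3 :=
  ‖vec (dirs P v) (z v)‖⁻¹ • vec (dirs P v) (z v)

lemma vec_ne {d : ℝ × ℝ} (hd : d ≠ 0) (z : ℝ) : vec d z ≠ 0 := by
  intro h
  apply hd
  have e0 : d.1 = 0 := by
    have := congrArg (fun x : E3 => x 0) h; simpa using this
  have e1 : d.2 = 0 := by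
    have := congrArg (fun x : E3 => x 1) h; simpa using this
  exact Prod.ext e0 e1

lemma place_rep (hdir : ∀ v, dirs P v ≠ 0) (z : Fin n → ℝ) :
    Rep (dirs P) (place P z) (fun v => ‖vec (dirs P v) (z v)‖⁻¹) z := by
  refine ⟨fun v => inv_pos.2 (norm_pos_iff.2 (vec_ne (hdir v) _)), ?_, ?_, ?_⟩ <;>
  · intro v; simp [place]

lemma place_norm (hdir : ∀ v, dirs P v ≠ 0) (z : Fin n → ℝ) (v : Fin n) : ‖place P z v‖ = 1 := by
  have h : ‖vec (dirs P v) (z v)‖ ≠ 0 := norm_ne_zero_iff.2 (vec_ne (hdir v) _)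
  unfold place
  rw [norm_smul, norm_inv, norm_norm]
  field_simp

lemma place_self (hP : IsShortestPathEmbedding G P) : place P (hts P) = P := by
  funext v
  have h : vec (dirs P v) (hts P v) = P v := e3_ext rfl rfl rfl
  unfold place
  rw [h, hP.on_sphere, inv_one, one_smul]

/-- a point of the cone is reached by a morph -/
lemma morph_of_cone (hn : 4 ≤ n) (hP : IsShortestPathEmbedding G P) (hgen : IsGeneric P)
    {z : Fin n → ℝ} (hz : InCone (dat G (dirs P)) (hts P) z) :
    ∃ Γ, IsLongitudinalMorph G P (place P z) Γ := by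
  have hdir := generic_dir hn hP hgen
  have hS := generic_S hP hgen
  have hgood0 : Good (dat G (dirs P)) (hts P) := good_of_emb hP rep_self
  let zt : ℝ → Fin n → ℝ := fun t v => (1 - t) * hts P v + t * z v
  refine ⟨fun t => place P (zt t), ?_, ?_, ?_, ?_, ?_⟩
  · have : zt 0 = hts P := by funext v; simp [zt]
    simp only [this]
    exact place_self hP
  · have : zt 1 = z := by funext v; simp [zt]
    simp only [this]
  · intro v
    apply Continuous.continuousOn
    have hvc : Continuous (fun t : ℝ => vec (dirs P v) (zt t v)) := by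
      unfold vec
      apply (PiLp.continuous_toLp 2 _).comp
      apply continuous_pi
      intro i
      fin_cases i
      · exact continuous_const
      · exact continuous_const
      · simp only [zt]
        change Continuous (fun t : ℝ => (1 - t) * hts P v + t * z v)
        fun_prop
    unfold place
    exact (hvc.norm.inv₀ (fun t => norm_ne_zero_iff.2 (vec_ne (hdir v) _))).smul hvc
  · intro t ht
    have hcone : InCone (dat G (dirs P)) (hts P) (zt t) :=
      (InCone.self hgood0).convex hz (by linarith [ht.2]) ht.1 (by ring)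
    exact emb_of_good hS (hcone.good hgood0 hS) (place_rep hdir _) (place_norm hdir _)
  · intro t _ v
    refine ⟨?_, ‖vec (dirs P v) (zt t v)‖⁻¹, (place_rep hdir (zt t)).pos v,
      (place_rep hdir (zt t)).x0 v, (place_rep hdir (zt t)).x1 v⟩
    by_contra hcon
    push Not at hcon
    exact hdir v (Prod.ext hcon.1 hcon.2)

/-- generic heights near the end of the cone -/
lemma generic_point {σ : ℝ} (hn : 4 ≤ n) (hP : IsShortestPathEmbedding G P) (hgen : IsGeneric P)
    (h : ∃ z, InCone (dat G (dirs P)) (hts P) z ∧ ∀ v, 0 < σ * z v) :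
    ∃ z, InCone (dat G (dirs P)) (hts P) z ∧ (∀ v, 0 < σ * z v) ∧ IsGeneric (place P z) := by
  obtain ⟨z, hz, hpos⟩ := h
  have hdir := generic_dir hn hP hgen
  have hS := generic_S hP hgen
  have hgood0 : Good (dat G (dirs P)) (hts P) := good_of_emb hP rep_self
  let D3 : (Fin n → ℝ) → Fin n → Fin n → Fin n → ℝ := fun z u v w =>
    z u * S (dirs P v) (dirs P w) + z v * S (dirs P w) (dirs P u) + z w * S (dirs P u) (dirs P v)
  have hD0 : ∀ u v w, u ≠ v → v ≠ w → u ≠ w → D3 (hts P) u v w ≠ 0 := by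
    intro u v w huv hvw huw h0
    have hm : vec (P u 1 * P v 2 - P u 2 * P v 1, P u 2 * P v 0 - P u 0 * P v 2)
        (P u 0 * P v 1 - P u 1 * P v 0) ≠ 0 := by
      intro h
      have := congrArg (fun x : E3 => x 2) h
      simp only [vec_2, PiLp.zero_apply] at this
      exact hS u v huv (by unfold S dirs; simpa using this)
    apply hgen.no_three _ hm u v w huv hvw huw
    refine ⟨⟨hP.on_sphere u, ?_⟩, ⟨hP.on_sphere v, ?_⟩, ⟨hP.on_sphere w, ?_⟩⟩
    · rw [inner_e3]; simp only [vec_0, vec_1, vec_2]; ring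
    · rw [inner_e3]; simp only [vec_0, vec_1, vec_2]; ring
    · rw [inner_e3]; simp only [vec_0, vec_1, vec_2]
      simp only [D3, hts, S, dirs] at h0
      linear_combination h0
  let zt : ℝ → Fin n → ℝ := fun t v => (1 - t) * z v + t * hts P v
  have hev : ∀ᶠ t : ℝ in 𝓝[>] 0, (∀ v, 0 < σ * zt t v) ∧
      (∀ u v w, u ≠ v → v ≠ w → u ≠ w → D3 (zt t) u v w ≠ 0) ∧ t < 1 := by
    refine Filter.Eventually.and ?_ (Filter.Eventually.and ?_ ?_)
    · rw [Filter.eventually_all]
      intro v
      have hc : Continuous (fun t : ℝ => σ * zt t v) := by simp only [zt]; fun_prop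
      have h0 : 0 < (fun t : ℝ => σ * zt t v) 0 := by simpa [zt] using hpos v
      exact (hc.continuousAt.eventually (lt_mem_nhds h0)).filter_mono nhdsWithin_le_nhds
    · rw [Filter.eventually_all]
      intro u
      rw [Filter.eventually_all]
      intro v
      rw [Filter.eventually_all]
      intro w
      by_cases hd : u ≠ v ∧ v ≠ w ∧ u ≠ w
      · obtain ⟨huv, hvw, huw⟩ := hd
        have hlin : ∀ t, D3 (zt t) u v w = (1 - t) * D3 z u v w + t * D3 (hts P) u v w := by
          intro t; simp only [D3, zt]; ring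
        by_cases hz0 : D3 z u v w = 0
        · filter_upwards [self_mem_nhdsWithin] with t ht _ _ _
          rw [hlin, hz0, mul_zero, zero_add]
          exact mul_ne_zero (ne_of_gt ht) (hD0 u v w huv hvw huw)
        · have hc : Continuous (fun t : ℝ => D3 (zt t) u v w) := by
            simp only [hlin]; fun_prop
          have h0 : (fun t : ℝ => D3 (zt t) u v w) 0 ≠ 0 := by
            simp only [hlin]; simpa using hz0
          have h1 := (hc.continuousAt.eventually_ne h0).filter_mono
            (nhdsWithin_le_nhds (a := (0:ℝ)) (s := Set.Ioi 0))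
          filter_upwards [h1] with t ht _ _ _
          exact ht
      · apply Filter.Eventually.of_forall
        intro t h1 h2 h3
        exact absurd ⟨h1, h2, h3⟩ hd
    · exact (eventually_lt_nhds (one_pos)).filter_mono nhdsWithin_le_nhds
  obtain ⟨t, ⟨h1, h2, h3⟩, h4⟩ := (hev.and self_mem_nhdsWithin).exists
  have h4' : (0:ℝ) < t := h4
  have hcone : InCone (dat G (dirs P)) (hts P) (zt t) :=
    hz.convex (InCone.self hgood0) (by linarith) h4'.le (by ring)
  refine ⟨zt t, hcone, h1, ?_, ?_⟩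
  · rintro m hm u v w huv hvw huw ⟨⟨-, hu⟩, ⟨-, hv⟩, ⟨-, hw⟩⟩
    apply h2 u v w huv hvw huw
    have hk := place_rep hdir (zt t)
    rw [inner_e3, hk.x0, hk.x1, hk.x2] at hu hv hw
    have e : ∀ v, m 0 * (dirs P v).1 + m 1 * (dirs P v).2 + m 2 * zt t v = 0 →
        m 0 * (dirs P v).1 + m 1 * (dirs P v).2 = - (m 2 * zt t v) := fun v h => by linarith
    have hcl : ∀ v, m 0 * (‖vec (dirs P v) (zt t v)‖⁻¹ * (dirs P v).1)
        + m 1 * (‖vec (dirs P v) (zt t v)‖⁻¹ * (dirs P v).2)
        + m 2 * (‖vec (dirs P v) (zt t v)‖⁻¹ * zt t v) = 0 →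
        m 0 * (dirs P v).1 + m 1 * (dirs P v).2 + m 2 * zt t v = 0 := by
      intro v h
      have hp := (hk.pos v).ne'
      have : ‖vec (dirs P v) (zt t v)‖⁻¹ * (m 0 * (dirs P v).1 + m 1 * (dirs P v).2
          + m 2 * zt t v) = 0 := by rw [← h]; ring
      exact (mul_eq_zero.1 this).resolve_left hp
    have hu' := hcl u hu
    have hv' := hcl v hv
    have hw' := hcl w hw
    -- the determinant vanishes on a nonzero vector
    have k2 : m 2 * D3 (zt t) u v w = 0 := by
      simp only [D3, S]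
      linear_combination ((dirs P v).1 * (dirs P w).2 - (dirs P v).2 * (dirs P w).1) * hu'
        + ((dirs P w).1 * (dirs P u).2 - (dirs P w).2 * (dirs P u).1) * hv'
        + ((dirs P u).1 * (dirs P v).2 - (dirs P u).2 * (dirs P v).1) * hw'
    rcases mul_eq_zero.1 k2 with h | h
    · exfalso
      rw [h, zero_mul, add_zero] at hu' hv'
      have hSuv := hS u v huv
      have g0 : m 0 * S (dirs P u) (dirs P v) = 0 := by
        unfold S
        linear_combination (dirs P v).2 * hu' - (dirs P u).2 * hv'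
      have g1 : m 1 * S (dirs P u) (dirs P v) = 0 := by
        unfold S
        linear_combination (dirs P u).1 * hv' - (dirs P v).1 * hu'
      have g0' := (mul_eq_zero.1 g0).resolve_right hSuv
      have g1' := (mul_eq_zero.1 g1).resolve_right hSuv
      exact hm (e3_ext g0' g1' h)
    · exact h
  · rintro m hm ⟨-, hnp⟩ u v huv ⟨⟨-, hu⟩, ⟨-, hv⟩⟩
    rw [northPole_inner] at hnp
    have hk := place_rep hdir (zt t)
    rw [inner_e3, hk.x0, hk.x1, hk.x2, hnp] at hu hv
    have hcl : ∀ v, m 0 * (‖vec (dirs P v) (zt t v)‖⁻¹ * (dirs P v).1)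
        + m 1 * (‖vec (dirs P v) (zt t v)‖⁻¹ * (dirs P v).2)
        + 0 * (‖vec (dirs P v) (zt t v)‖⁻¹ * zt t v) = 0 →
        m 0 * (dirs P v).1 + m 1 * (dirs P v).2 = 0 := by
      intro v h
      have hp := (hk.pos v).ne'
      have : ‖vec (dirs P v) (zt t v)‖⁻¹ * (m 0 * (dirs P v).1 + m 1 * (dirs P v).2) = 0 := by
        rw [← h]; ring
      exact (mul_eq_zero.1 this).resolve_left hp
    have hu' := hcl u hu
    have hv' := hcl v hv
    have hSuv := hS u v huv
    have g0 : m 0 * S (dirs P u) (dirs P v) = 0 := by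
      unfold S
      linear_combination (dirs P v).2 * hu' - (dirs P u).2 * hv'
    have g1 : m 1 * S (dirs P u) (dirs P v) = 0 := by
      unfold S
      linear_combination (dirs P u).1 * hv' - (dirs P v).1 * hu'
    have g0' := (mul_eq_zero.1 g0).resolve_right hSuv
    have g1' := (mul_eq_zero.1 g1).resolve_right hSuv
    exact hm (e3_ext g0' g1' hnp)

lemma place_sign (hdir : ∀ v, dirs P v ≠ 0) {σ : ℝ} {z : Fin n → ℝ} (h : ∀ v, 0 < σ * z v)
    (v : Fin n) : 0 < σ * place P z v 2 := by
  have hk := place_rep hdir z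
  rw [hk.x2]
  have h1 := hk.pos v
  have h2 := h v
  have : σ * (‖vec (dirs P v) (z v)‖⁻¹ * z v) = ‖vec (dirs P v) (z v)‖⁻¹ * (σ * z v) := by ring
  rw [this]
  exact mul_pos h1 h2

/-- everything together: from reaching the side `- σ` to reaching generically the side `σ` -/
theorem main (hn : 4 ≤ n) (hP : IsShortestPathEmbedding G P) (hgen : IsGeneric P) :
    (∃ z, InCone (dat G (dirs P)) (hts P) z ∧ ∀ v, 0 < (-1) * z v) ↔
    (∃ z, InCone (dat G (dirs P)) (hts P) z ∧ ∀ v, 0 < (1 : ℝ) * z v) := by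
  have hdir := generic_dir hn hP hgen
  have hgood0 : Good (dat G (dirs P)) (hts P) := good_of_emb hP rep_self
  have h := neg_iff_pos hgood0 hdir
  simpa using h

end main

end Pool.Agent.Lib.MP_731b42_co
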